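import Pool.Agent.Q66.DS.Basic

/-! # JOB BAD (project DS) -/

set_option autoImplicit false

open MeasureTheory Set Metric
open scoped ENNReal

namespace Pool.Agent.Q66.DS

/-- dilation of a Frostman measure -/
theorem frost_map (μ : Measure ℝ) (α C L s : ℝ) (h : Frost μ α C L) (hs : 1 ≤ s)
    (hs3 : s ≤ 3) :
    Frost (μ.map fun a => s * a) α C (3 * |L|) ∧ ∀ ξ, ch (μ.map fun a => s * a) ξ = ch μ (s * ξ) := by
  have hm : Measurable fun a : ℝ => s * a := by fun_prop
  have hs0 : 0 < s := by linarith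
  obtain ⟨hp, hL, hb⟩ := h
  refine ⟨⟨Measure.isProbabilityMeasure_map hm.aemeasurable, ?_, ?_⟩, ?_⟩
  · rw [Measure.map_apply hm measurableSet_Icc.compl]
    refine measure_mono_null ?_ hL
    intro a ha hmem
    apply ha
    have h1 : |a| ≤ |L| := by
      rw [abs_le]
      have := le_abs_self L
      constructor <;> linarith [hmem.1, hmem.2]
    have h2 : |s * a| ≤ 3 * |L| := by
      rw [abs_mul, abs_of_pos hs0]
      exact mul_le_mul hs3 h1 (abs_nonneg _) (by norm_num)
    exact abs_le.1 h2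
  · intro x r hr
    rw [Measure.map_apply hm measurableSet_closedBall]
    refine (measure_mono ?_).trans (hb (x / s) r hr)
    intro a ha
    rw [mem_preimage, mem_closedBall, Real.dist_eq] at ha
    rw [mem_closedBall, Real.dist_eq]
    have h1 : a - x / s = (s * a - x) / s := by field_simp
    rw [h1, abs_div, abs_of_pos hs0, div_le_iff₀ hs0]
    nlinarith
  · intro ξ
    unfold ch
    rw [integral_map hm.aemeasurable]
    · congr 1
      ext a
      congr 1
      ring
    · exact (continuous_e.comp (by fun_prop)).aestronglyMeasurable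

/-- discretisation: a set of measure more than `κ` meets some translate of the grid in many points -/
theorem grid_pick (B : Set ℝ) (hB : MeasurableSet B) (hB1 : B ⊆ Ioo 0 1) (κ : ℝ) (hκ : 0 < κ) (N : ℕ)
    (hN : 0 < N) (hv : ENNReal.ofReal κ < volume B) :
    ∃ x : ℝ, 0 ≤ x ∧ x < 1 / N ∧ ∃ J : Finset ℤ, J ⊆ Finset.Ico 0 (N : ℤ) ∧ κ * N ≤ (J.card : ℝ) ∧
      ∀ i ∈ J, (i : ℝ) / N + x ∈ B := by
  classical
  have hN0 : (0 : ℝ) < N := by exact_mod_cast hN
  by_contra hcon
  push Not at hcon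
  apply absurd hv
  rw [not_lt]
  set f : ℤ → ℝ → ℝ≥0∞ := fun m x => B.indicator (fun _ => (1 : ℝ≥0∞)) ((m : ℝ) / N + x) with hf
  have hfm : ∀ m, Measurable (f m) := by
    intro m
    exact (measurable_const.indicator hB).comp (by fun_prop)
  have hpiece : ∀ m : ℤ, volume (B ∩ Ico ((m : ℝ) / N) (m / N + 1 / N)) =
      ∫⁻ x in Ico 0 (1 / (N : ℝ)), f m x := by
    intro m
    have h1 : ∫⁻ x in Ico 0 (1 / (N : ℝ)), f m x =
        volume ((fun x : ℝ => (m : ℝ) / N + x) ⁻¹' (B ∩ Ico ((m : ℝ) / N) (m / N + 1 / N))) := by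
      have h2 : (fun x : ℝ => (m : ℝ) / N + x) ⁻¹' (B ∩ Ico ((m : ℝ) / N) (m / N + 1 / N)) =
          ((fun x : ℝ => (m : ℝ) / N + x) ⁻¹' B) ∩ Ico 0 (1 / (N : ℝ)) := by
        ext x
        simp only [mem_preimage, mem_inter_iff, mem_Ico]
        constructor
        · rintro ⟨h, h3, h4⟩; exact ⟨h, by linarith, by linarith⟩
        · rintro ⟨h, h3, h4⟩; exact ⟨h, by linarith, by linarith⟩
      rw [h2]
      have h3 : f m = ((fun x : ℝ => (m : ℝ) / N + x) ⁻¹' B).indicator fun _ => (1 : ℝ≥0∞) := by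
        ext x
        simp [hf, indicator]
      rw [h3, lintegral_indicator_const₀]
      · rw [one_mul, Measure.restrict_apply₀]
        exact (((measurable_const_add _) hB).nullMeasurableSet)
      · exact (((measurable_const_add _) hB).nullMeasurableSet)
    rw [h1, measure_preimage_add]
  have hcover : B ⊆ ⋃ m ∈ Finset.Ico 0 (N : ℤ), (B ∩ Ico ((m : ℝ) / N) (m / N + 1 / N)) := by
    intro u hu
    have hu1 := hB1 hu
    have h1 := Int.floor_le (u * N)
    have h2 := Int.lt_floor_add_one (u * N)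
    simp only [mem_iUnion, mem_inter_iff, exists_prop]
    refine ⟨⌊u * N⌋, ?_, hu, ?_, ?_⟩
    · rw [Finset.mem_Ico]
      constructor
      · exact Int.floor_nonneg.2 (mul_nonneg hu1.1.le hN0.le)
      · rw [Int.floor_lt]
        push_cast
        nlinarith [hu1.2]
    · rw [div_le_iff₀ hN0]; exact h1
    · rw [← add_div, lt_div_iff₀ hN0]; exact h2
  calc volume B ≤ volume (⋃ m ∈ Finset.Ico 0 (N : ℤ), (B ∩ Ico ((m : ℝ) / N) (m / N + 1 / N))) :=
        measure_mono hcover
    _ ≤ ∑ m ∈ Finset.Ico 0 (N : ℤ), volume (B ∩ Ico ((m : ℝ) / N) (m / N + 1 / N)) :=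
        measure_biUnion_finset_le _ _
    _ = ∑ m ∈ Finset.Ico 0 (N : ℤ), ∫⁻ x in Ico 0 (1 / (N : ℝ)), f m x := by
        simp only [hpiece]
    _ = ∫⁻ x in Ico 0 (1 / (N : ℝ)), ∑ m ∈ Finset.Ico 0 (N : ℤ), f m x := by
        rw [lintegral_finsetSum _ fun m _ => hfm m]
    _ ≤ ∫⁻ _x in Ico 0 (1 / (N : ℝ)), ENNReal.ofReal (κ * N) := by
        apply setLIntegral_mono measurable_const
        intro x hx
        set J : Finset ℤ := (Finset.Ico 0 (N : ℤ)).filter fun m : ℤ => (m : ℝ) / N + x ∈ B with hJ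
        have h1 : ∑ m ∈ Finset.Ico 0 (N : ℤ), f m x = (J.card : ℝ≥0∞) := by
          simp only [hf, indicator]
          rw [Finset.sum_ite, Finset.sum_const_zero, add_zero, Finset.sum_const, nsmul_eq_mul, mul_one]
        rw [h1]
        have h2 : ¬ (κ * N ≤ (J.card : ℝ)) := by
          intro hle
          obtain ⟨i, hi, hi'⟩ := hcon x hx.1 hx.2 J (Finset.filter_subset _ _) hle
          exact hi' (Finset.mem_filter.1 hi).2
        push Not at h2
        have : (J.card : ℝ≥0∞) = ENNReal.ofReal (J.card : ℝ) := by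
          rw [ENNReal.ofReal_natCast]
        rw [this]
        exact ENNReal.ofReal_le_ofReal h2.le
    _ = ENNReal.ofReal κ := by
        rw [setLIntegral_const, Real.volume_Ico, sub_zero, ← ENNReal.ofReal_mul (by positivity)]
        congr 1
        field_simp

theorem t_BAD (h : S_KEY) : S_BAD := by
  intro q α C L hα hα1 hC hq
  obtain ⟨C', hC', hK⟩ := h q α C (3 * |L|) hα hα1 hC hq
  refine ⟨C', hC', ?_⟩
  intro μ hμ R κ Q F hR hκ hF hQ hvol
  have hprob : IsProbabilityMeasure μ := hμ.1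
  have hR0 : 0 < R := by linarith
  have hle : R ≤ 2 * R := by linarith
  set c := κ * R ^ ((1 - α) / 2) * Real.sqrt Q with hc
  have hc0 : 0 ≤ c := by positivity
  set G : ℝ → ℝ → ℂ := fun u y => ∫ ξ in R..(2 * R), F ξ * (ch μ (Real.exp u * ξ) * e (-(y * ξ))) with hG
  set B : Set ℝ := {u : ℝ | u ∈ Ioo (0 : ℝ) 1 ∧ ∃ y : ℝ, c < ‖G u y‖} with hB
  have hGc : ∀ y, Continuous fun u => G u y := by
    intro y
    apply intervalIntegral.continuous_parametric_intervalIntegral_of_continuous'
    have hcc := continuous_ch μ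
    have hce := continuous_e
    show Continuous fun p : ℝ × ℝ => F p.2 * (ch μ (Real.exp p.1 * p.2) * e (-(y * p.2)))
    exact (hF.comp continuous_snd).mul ((hcc.comp (by fun_prop)).mul (hce.comp (by fun_prop)))
  have hBo : IsOpen B := by
    have : B = Ioo 0 1 ∩ ⋃ y : ℝ, {u | c < ‖G u y‖} := by
      ext u
      simp [hB]
    rw [this]
    apply isOpen_Ioo.inter
    exact isOpen_iUnion fun y => isOpen_lt continuous_const (hGc y).norm
  set N := ⌈R ^ 2⌉₊ with hN
  have hRN : R ^ 2 ≤ N := Nat.le_ceil _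
  have hNpos : 0 < N := Nat.ceil_pos.2 (by positivity)
  have hN0 : (0 : ℝ) < N := by exact_mod_cast hNpos
  have hN1 : (1 : ℝ) ≤ N := by exact_mod_cast hNpos
  obtain ⟨x, hx0, hx1, J, hJ, hJc, hJB⟩ := grid_pick B hBo.measurableSet (fun u hu => hu.1) κ hκ N hNpos hvol
  have hκ1 : κ ≤ 1 := by
    have h1 : volume B ≤ 1 := by
      refine (measure_mono (fun u hu => hu.1 : B ⊆ Ioo 0 1)).trans ?_
      rw [Real.volume_Ioo]; simp
    have h2 := hvol.le.trans h1
    rwa [← ENNReal.ofReal_one, ENNReal.ofReal_le_ofReal_iff (by norm_num)] at h2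
  have hsx1 : 1 ≤ Real.exp x := Real.one_le_exp hx0
  have hsx3 : Real.exp x ≤ 3 := by
    have h1 : x ≤ 1 := by
      refine hx1.le.trans ?_
      rw [div_le_one hN0]; exact hN1
    exact (Real.exp_le_exp.2 h1).trans (by have := Real.exp_one_lt_d9; linarith)
  obtain ⟨hfr, hch⟩ := frost_map μ α C L (Real.exp x) hμ hsx1 hsx3
  -- choose the positions
  have hex : ∀ i : ℤ, ∃ y : ℝ, i ∈ J → c < ‖G ((i : ℝ) / N + x) y‖ := by
    intro i
    by_cases hi : i ∈ J
    · obtain ⟨_, y, hy⟩ := hJB i hi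
      exact ⟨y, fun _ => hy⟩
    · exact ⟨0, fun h => absurd h hi⟩
  choose y hy using hex
  have hJne : J.Nonempty := by
    rw [Finset.nonempty_iff_ne_empty]
    rintro rfl
    simp at hJc
    have := mul_pos hκ hN0
    linarith
  have hFi : IntervalIntegrable (fun ξ => ‖F ξ‖ ^ 2) volume R (2 * R) := ((hF.norm).pow 2).intervalIntegrable _ _
  have hIpos : 0 < ∫ ξ in R..(2 * R), ‖F ξ‖ ^ 2 := by
    have h0 : 0 ≤ ∫ ξ in R..(2 * R), ‖F ξ‖ ^ 2 :=
      intervalIntegral.integral_nonneg hle fun ξ _ => by positivity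
    rcases h0.lt_or_eq with h1 | h1
    · exact h1
    · exfalso
      obtain ⟨i, hi⟩ := hJne
      have h2 := (intervalIntegral.integral_eq_zero_iff_of_le_of_nonneg_ae hle
        (Filter.Eventually.of_forall fun ξ => by positivity) hFi).1 h1.symm
      have h3 : G ((i : ℝ) / N + x) (y i) = 0 := by
        simp only [hG]
        rw [intervalIntegral.integral_of_le hle]
        have : ∀ᵐ ξ ∂(volume.restrict (Ioc R (2 * R))),
            F ξ * (ch μ (Real.exp ((i : ℝ) / N + x) * ξ) * e (-(y i * ξ))) = 0 := by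
          filter_upwards [h2] with ξ hξ
          have : F ξ = 0 := by simpa using hξ
          rw [this, zero_mul]
        rw [integral_congr_ae this]
        simp
      have h4 := hy i hi
      rw [h3, norm_zero] at h4
      linarith
  refine hK _ hfr R N hR hRN κ J y F hκ hκ1 hJ hJc hF hIpos ?_
  intro i hi
  have h1 : (∫ ξ in R..(2 * R), F ξ * (ch (μ.map fun a => Real.exp x * a) (sN N i * ξ) * e (-(y i * ξ)))) =
      G ((i : ℝ) / N + x) (y i) := by
    simp only [hG]
    apply intervalIntegral.integral_congr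
    intro ξ _
    simp only [hch]
    congr 3
    unfold sN
    rw [Real.exp_add]
    ring
  rw [h1]
  refine le_trans ?_ (hy i hi).le
  rw [hc]
  apply mul_le_mul_of_nonneg_left (Real.sqrt_le_sqrt hQ) (by positivity)

end Pool.Agent.Q66.DS
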