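import Pool.Agent.Q66.DS.Stm

/-! # Basic facts on `e`, `ch`, `kr`, `sN` (project DS) -/

set_option autoImplicit false

open MeasureTheory Set Metric

namespace Pool.Agent.Q66.DS

theorem norm_e (x : ℝ) : ‖e x‖ = 1 := by
  unfold e; exact Complex.norm_exp_ofReal_mul_I x

theorem continuous_e : Continuous e := by
  unfold e; fun_prop

theorem e_add (x y : ℝ) : e (x + y) = e x * e y := by
  unfold e
  rw [← Complex.exp_add]
  congr 1
  push_cast
  ring

theorem e_zero : e 0 = 1 := by simp [e]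

theorem conj_e (x : ℝ) : (starRingEnd ℂ) (e x) = e (-x) := by
  unfold e
  rw [← Complex.exp_conj]
  congr 1
  simp

theorem re_e (x : ℝ) : (e x).re = Real.cos x := by
  unfold e; exact Complex.exp_ofReal_mul_I_re x

theorem integrable_e (μ : Measure ℝ) [IsFiniteMeasure μ] (ξ : ℝ) :
    Integrable (fun a => e (ξ * a)) μ := by
  refine Integrable.mono' (integrable_const (1 : ℝ)) ?_ (Filter.Eventually.of_forall fun a => ?_)
  · exact (continuous_e.comp (by fun_prop)).aestronglyMeasurable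
  · rw [norm_e]

theorem norm_ch_le (μ : Measure ℝ) [IsProbabilityMeasure μ] (ξ : ℝ) : ‖ch μ ξ‖ ≤ 1 := by
  unfold ch
  refine (norm_integral_le_integral_norm _).trans ?_
  simp [norm_e]

theorem continuous_ch (μ : Measure ℝ) [IsFiniteMeasure μ] : Continuous (ch μ) := by
  unfold ch
  refine continuous_of_dominated (bound := fun _ => 1) ?_ ?_ (integrable_const _) ?_
  · intro ξ
    exact (continuous_e.comp (by fun_prop)).aestronglyMeasurable
  · intro ξ
    exact Filter.Eventually.of_forall fun a => (norm_e _).le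
  · exact Filter.Eventually.of_forall fun a => continuous_e.comp (by fun_prop)

theorem norm_e_sub_le (x y : ℝ) : ‖e x - e y‖ ≤ |x - y| := by
  have h : e x - e y = e y * (e (x - y) - 1) := by
    rw [mul_sub, ← e_add, mul_one]
    congr 2
    ring
  rw [h, norm_mul, norm_e, one_mul]
  unfold e
  have := Real.norm_exp_I_mul_ofReal_sub_one_le (x := x - y)
  rw [mul_comm]
  simpa using this

/-- `ch μ` is Lipschitz for a probability measure on `[-L, L]` -/
theorem ch_lip (μ : Measure ℝ) [IsProbabilityMeasure μ] (L : ℝ) (h : μ (Icc (-L) L)ᶜ = 0) (x y : ℝ) :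
    ‖ch μ x - ch μ y‖ ≤ |L| * |x - y| := by
  unfold ch
  rw [← integral_sub (integrable_e μ x) (integrable_e μ y)]
  refine (norm_integral_le_of_norm_le_const (C := |L| * |x - y|) ?_).trans (by simp)
  have h1 : ∀ᵐ a ∂μ, a ∈ Icc (-L) L := by
    rw [ae_iff]; exact h
  filter_upwards [h1] with a ha
  refine (norm_e_sub_le _ _).trans ?_
  rw [← sub_mul, abs_mul, mul_comm]
  refine mul_le_mul_of_nonneg_right ?_ (abs_nonneg _)
  exact (abs_le.2 ⟨ha.1, ha.2⟩).trans (le_abs_self L)

theorem kr_nonneg (R z : ℝ) (hR : 0 ≤ R) : 0 ≤ kr R z := by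
  unfold kr; positivity

theorem kr_le (R z : ℝ) (hR : 0 ≤ R) : kr R z ≤ 4 * R := by
  unfold kr
  have : 1 ≤ 1 + R * |z| := by have := mul_nonneg hR (abs_nonneg z); linarith
  exact div_le_self (by positivity) this

theorem kr_neg (R z : ℝ) : kr R (-z) = kr R z := by
  unfold kr; rw [abs_neg]

theorem kr_add_le (R z ε : ℝ) (hR : 0 < R) : kr R (z + ε) ≤ (1 + R * |ε|) * kr R z := by
  unfold kr
  rw [← mul_div_assoc, div_le_div_iff₀ (by positivity) (by positivity)]
  have h : |z| ≤ |z + ε| + |ε| := by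
    have := abs_sub (z + ε) ε
    simpa using this
  have h2 : 0 ≤ R * |ε| := by positivity
  have h3 : 0 ≤ R * |z + ε| := by positivity
  have h4 : 1 + R * |z| ≤ (1 + R * |ε|) * (1 + R * |z + ε|) := by
    have : R * |z| ≤ R * |z + ε| + R * |ε| := by
      rw [← mul_add]; exact mul_le_mul_of_nonneg_left h hR.le
    nlinarith [mul_nonneg h2 h3]
  nlinarith [mul_le_mul_of_nonneg_left h4 (by positivity : (0:ℝ) ≤ 4 * R)]

theorem kr_mul_le (R b ρ z : ℝ) (hR : 0 < R) (hρ : 0 < ρ) (hρ1 : ρ ≤ 1) (hb : ρ ≤ |b|) :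
    kr R (b * z) ≤ 1 / ρ * kr R z := by
  unfold kr
  rw [abs_mul, ← mul_div_assoc, div_le_div_iff₀ (by positivity) (by positivity)]
  have h3 : 0 ≤ R * |z| := by positivity
  have h4 : ρ * (1 + R * |z|) ≤ 1 + R * (|b| * |z|) := by
    have : R * |z| * ρ ≤ R * |z| * |b| := mul_le_mul_of_nonneg_left hb h3
    nlinarith
  have h5 : 1 + R * |z| ≤ 1 / ρ * (1 + R * (|b| * |z|)) := by
    rw [div_mul_eq_mul_div, one_mul, le_div_iff₀ hρ, mul_comm]; exact h4
  nlinarith [mul_le_mul_of_nonneg_left h5 (by positivity : (0:ℝ) ≤ 4 * R)]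

theorem continuous_kr (R : ℝ) (hR : 0 ≤ R) : Continuous (kr R) := by
  unfold kr
  refine Continuous.div (by fun_prop) (by fun_prop) fun z => ?_
  have := mul_nonneg hR (abs_nonneg z); positivity

theorem sN_pos (N : ℕ) (i : ℤ) : 0 < sN N i := Real.exp_pos _

theorem sN_add (N : ℕ) (i j : ℤ) : sN N (i + j) = sN N i * sN N j := by
  unfold sN
  rw [← Real.exp_add]
  congr 1
  push_cast
  ring

theorem one_le_sN (N : ℕ) (i : ℤ) (h : 0 ≤ i) : 1 ≤ sN N i := by
  unfold sN
  apply Real.one_le_exp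
  have : (0 : ℝ) ≤ i := by exact_mod_cast h
  positivity

theorem sN_le_three (N : ℕ) (i : ℤ) (h : i < N) : sN N i ≤ 3 := by
  unfold sN
  have hN : (i : ℝ) / N ≤ 1 := by
    rcases Nat.eq_zero_or_pos N with h0 | h0
    · subst h0; simp
    · have h1 : (0 : ℝ) < N := by exact_mod_cast h0
      rw [div_le_one h1]
      have : (i : ℝ) < N := by exact_mod_cast h
      linarith
  exact (Real.exp_le_exp.2 hN).trans (by have := Real.exp_one_lt_d9; linarith)

theorem sN_mem (N : ℕ) {J : Finset ℤ} (hJ : J ⊆ Finset.Ico 0 (N : ℤ)) {i : ℤ} (hi : i ∈ J) :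
    1 ≤ sN N i ∧ sN N i ≤ 3 := by
  have := Finset.mem_Ico.1 (hJ hi)
  exact ⟨one_le_sN N i this.1, sN_le_three N i this.2⟩

end Pool.Agent.Q66.DS
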