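import Pool.Agent.Q66.DS.Basic

/-! # Assembly of the theorem (project DS) -/

set_option autoImplicit false

open MeasureTheory Set Metric

namespace Pool.Agent.Q66.DS

/-- the weights -/
noncomputable def wt (i : Bool) (k : ℕ) (ξ : ℝ) : ℝ := if i then ξ / 2 ^ k - 1 else 2 - ξ / 2 ^ k

theorem continuous_wt (i : Bool) (k : ℕ) : Continuous (wt i k) := by
  unfold wt
  cases i <;> simp <;> fun_prop

theorem abs_wt_le (i : Bool) (k : ℕ) (ξ : ℝ) (h : ξ ∈ Icc ((2 : ℝ) ^ k) (2 * 2 ^ k)) : |wt i k ξ| ≤ 1 := by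
  have h0 : (0 : ℝ) < 2 ^ k := by positivity
  have h1 : 1 ≤ ξ / 2 ^ k := by rw [le_div_iff₀ h0]; linarith [h.1]
  have h2 : ξ / 2 ^ k ≤ 2 := by rw [div_le_iff₀ h0]; linarith [h.2]
  unfold wt
  cases i <;> simp [abs_le] <;> constructor <;> linarith

theorem final_of (hB : S_FROB) (hL : S_LAW) (hT : S_TS) (hP : S_PICK) (hTop : S_TOP) (m : ℕ) (hm : 1 ≤ m)
    (A : Set ℝ) (hA : MeasurableSet A)
    (hd : ENNReal.ofReal (2 / (m + 2 : ℝ) - 1 / (48 * (m + 2) * ((m + 2) + 200))) < dimH A) :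
    ∃ t : Fin (m + 2) → ℝ, t 0 = 1 ∧
      (interior {z : ℝ | ∃ a : Fin (m + 2) → ℝ, (∀ i, a i ∈ A) ∧ z = ∑ i, t i * a i}).Nonempty := by
  set n : ℝ := (m : ℝ) + 2 with hn
  have hm1 : (1 : ℝ) ≤ m := by exact_mod_cast hm
  have hn3 : 3 ≤ n := by linarith
  set α : ℝ := 2 / n - 1 / (48 * n * (n + 200)) with hα
  have hnn : 0 < n := by linarith
  have hδ : 1 / (48 * n * (n + 200)) ≤ 1 / n := by
    apply one_div_le_one_div_of_le hnn
    nlinarith
  have hδ0 : 0 < 1 / (48 * n * (n + 200)) := by positivity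
  have hα0 : 0 < α := by
    have : 2 / n = 1 / n + 1 / n := by ring
    have h1 : 0 < 1 / n := by positivity
    rw [hα, this]; linarith
  have hα23 : α ≤ 2 / 3 := by
    have : 2 / n ≤ 2 / 3 := by
      apply div_le_div_of_nonneg_left (by norm_num) (by norm_num) hn3
    linarith
  have hα1 : α < 1 := by linarith
  obtain ⟨K, μ, C, L, hKA, hK, hμK, hC, hμ⟩ := hB A α hA hα0 hd
  have hprob : IsProbabilityMeasure μ := hμ.1
  set ε1 : ℝ := 1 / (48 * (n + 200)) with hε1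
  have hε10 : 0 < ε1 := by positivity
  obtain ⟨t, ht0, ht13, Q, hQ, htQ⟩ := hT m α C L ε1 hα0 hα1 hC hε10 μ hμ
  set q : ℕ := 2 * (m + 2) with hq
  have hqR : (q : ℝ) = 2 * n := by rw [hq, hn]; push_cast; ring
  have hqα : 2 ≤ (q : ℝ) * α := by
    rw [hqR, hα]
    have h1 : 2 * n * (2 / n - 1 / (48 * n * (n + 200))) = 4 - 2 / (48 * (n + 200)) := by
      field_simp
      ring
    rw [h1]
    have h2 : 2 / (48 * (n + 200)) ≤ 2 := by
      rw [div_le_iff₀ (by positivity)]; nlinarith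
    linarith
  set β : ℝ := 1 - ((m : ℝ) + 1) * α + ε1 with hβ
  have hcond : 1 - α + β ≤ (1 - α) / (4 * (400 + q)) := by
    have h1 : 1 - α + β = 1 / (24 * (n + 200)) := by
      rw [hβ, hε1, hα]
      have : (m : ℝ) = n - 2 := by rw [hn]; ring
      rw [this]
      field_simp
      ring
    rw [h1, hqR, div_le_div_iff₀ (by positivity) (by positivity)]
    nlinarith
  set F : Bool → ℕ → ℝ → ℂ := fun i k ξ => ((wt i k ξ : ℝ) : ℂ) * ∏ j, ch μ (t j * ξ) with hF
  have hprodc : Continuous fun ξ : ℝ => ∏ j, ch μ (t j * ξ) :=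
    continuous_finsetProd _ fun j _ => (continuous_ch μ).comp (by fun_prop)
  have hFc : ∀ i k, Continuous (F i k) := fun i k =>
    (Complex.continuous_ofReal.comp (continuous_wt i k)).mul hprodc
  have hFQ : ∀ i k, ∫ ξ in ((2 : ℝ) ^ k)..(2 * 2 ^ k), ‖F i k ξ‖ ^ 2 ≤ Q * ((2 : ℝ) ^ k) ^ β := by
    intro i k
    have h0 : (0 : ℝ) < 2 ^ k := by positivity
    refine le_trans ?_ (htQ k)
    apply intervalIntegral.integral_mono_on (by linarith)
    · exact (((hFc i k).norm).pow 2).intervalIntegrable _ _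
    · apply Continuous.intervalIntegrable
      exact continuous_finsetProd _ fun j _ =>
        (((continuous_ch μ).comp (by fun_prop : Continuous fun ξ : ℝ => t j * ξ)).norm).pow 2
    · intro ξ hξ
      simp only [hF]
      rw [norm_mul, mul_pow, norm_prod, ← Finset.prod_pow]
      have h1 : ‖((wt i k ξ : ℝ) : ℂ)‖ ^ 2 ≤ 1 := by
        rw [Complex.norm_real, Real.norm_eq_abs]
        exact pow_le_one₀ (abs_nonneg _) (abs_wt_le i k ξ hξ)
      calc _ ≤ 1 * ∏ j, ‖ch μ (t j * ξ)‖ ^ 2 :=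
            mul_le_mul_of_nonneg_right h1 (Finset.prod_nonneg fun j _ => by positivity)
        _ = _ := one_mul _
  obtain ⟨u, hu, M, hM, hb⟩ := hP q α C L hα0 hα1 hC hqα μ hμ Q β F hQ hcond hFc hFQ
  set t' : Fin (m + 2) → ℝ := Fin.snoc t (Real.exp u) with ht'
  obtain ⟨hcl, ν, hν, hνch, hνS, Y, hY, hνY⟩ := hL (m + 2) μ t' K L hprob hK hμK hμ.2.1
  have hch : ∀ ξ, ch ν ξ = (∏ j, ch μ (t j * ξ)) * ch μ (Real.exp u * ξ) := by
    intro ξ
    rw [hνch, Fin.prod_univ_castSucc]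
    simp [ht']
  refine ⟨t', ?_, ?_⟩
  · rw [ht']
    have : (0 : Fin (m + 2)) = Fin.castSucc 0 := rfl
    rw [this, Fin.snoc_castSucc, ht0]
  · have hc : 0 < (1 - α) / (8 * (400 + q)) := by
      apply div_pos (by linarith) (by positivity)
    have hint := hTop ν Y M ((1 - α) / (8 * (400 + q))) _ hν hY hM hc hνY hcl hνS
      (by
        intro k y
        refine le_trans (le_of_eq ?_) (hb true k y)
        congr 1
        apply intervalIntegral.integral_congr
        intro ξ _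
        simp only [hF, hch, wt]
        simp
        ring)
      (by
        intro k y
        refine le_trans (le_of_eq ?_) (hb false k y)
        congr 1
        apply intervalIntegral.integral_congr
        intro ξ _
        simp only [hF, hch, wt]
        simp
        ring)
    refine hint.mono (interior_mono ?_)
    rintro z ⟨a, ha, rfl⟩
    exact ⟨a, fun i => hKA (ha i), rfl⟩

/-- the form of the hand-in -/
theorem final_form (hB : S_FROB) (hL : S_LAW) (hT : S_TS) (hP : S_PICK) (hTop : S_TOP) :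
    ∀ n : ℕ, 3 ≤ n → ∀ A : Set ℝ, MeasurableSet A →
      ENNReal.ofReal (2 / n - 1 / (48 * n * (n + 200))) < dimH A →
      ∃ t : Fin n → ℝ, (∀ i : Fin n, (i : ℕ) = 0 → t i = 1) ∧ ∃ x y : ℝ, x < y ∧
        Ioo x y ⊆ {z : ℝ | ∃ a : Fin n → ℝ, (∀ i, a i ∈ A) ∧ z = ∑ i, t i * a i} := by
  intro n hn A hA hd
  obtain ⟨m, rfl⟩ : ∃ m, n = m + 2 := ⟨n - 2, by omega⟩
  have hd' : ENNReal.ofReal (2 / (m + 2 : ℝ) - 1 / (48 * (m + 2) * ((m + 2) + 200))) < dimH A := by
    have : (2 / ((m + 2 : ℕ) : ℝ) - 1 / (48 * ((m + 2 : ℕ) : ℝ) * (((m + 2 : ℕ) : ℝ) + 200))) =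
      2 / (m + 2 : ℝ) - 1 / (48 * (m + 2) * ((m + 2) + 200)) := by push_cast; ring
    rwa [this] at hd
  obtain ⟨t, ht, z, hz⟩ := final_of hB hL hT hP hTop m (by omega) A hA hd'
  refine ⟨t, ?_, ?_⟩
  · intro i hi
    have : i = 0 := Fin.ext hi
    rw [this, ht]
  · rw [mem_interior_iff_mem_nhds, Metric.mem_nhds_iff] at hz
    obtain ⟨r, hr, hr'⟩ := hz
    refine ⟨z - r, z + r, by linarith, ?_⟩
    rwa [← Real.ball_eq_Ioo]

end Pool.Agent.Q66.DS
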