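import Pool.Agent.Q66.DS.Basic

/-! # The key estimate (project DS) -/

set_option autoImplicit false

open MeasureTheory Set Metric

namespace Pool.Agent.Q66.DS

theorem memLp_of_cont (f : ℝ → ℂ) (hf : Continuous f) (a b : ℝ) :
    MemLp f 2 (volume.restrict (Ioc a b)) := by
  have h : MemLp f 2 (volume.restrict (Icc a b)) := by
    obtain ⟨M, hM⟩ := (isCompact_Icc (a := a) (b := b)).exists_bound_of_continuousOn hf.continuousOn
    refine MemLp.of_bound hf.aestronglyMeasurable M ?_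
    filter_upwards [ae_restrict_mem measurableSet_Icc] with x hx using hM x hx
  exact h.mono_measure (Measure.restrict_mono Ioc_subset_Icc_self le_rfl)

/-- the consequence of `S_GRAM` -/
theorem gram_low (hG : S_GRAM) (μ : Measure ℝ) [IsProbabilityMeasure μ] (R : ℝ) (hR : 0 < R) (N : ℕ)
    (J : Finset ℤ) (y : ℤ → ℝ) (F : ℝ → ℂ) (hF : Continuous F) (b : ℝ) (hb : 0 ≤ b)
    (hI : 0 < ∫ ξ in R..(2 * R), ‖F ξ‖ ^ 2)
    (h : ∀ i ∈ J, b * Real.sqrt (∫ ξ in R..(2 * R), ‖F ξ‖ ^ 2) ≤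
      ‖∫ ξ in R..(2 * R), F ξ * (ch μ (sN N i * ξ) * e (-(y i * ξ)))‖) :
    (J.card : ℝ) ^ 2 * b ^ 2 ≤ ∑ i ∈ J, ∑ j ∈ J, ‖GG μ N R y i j‖ := by
  set I := ∫ ξ in R..(2 * R), ‖F ξ‖ ^ 2 with hIdef
  have hle : R ≤ 2 * R := by linarith
  set g : ℤ → ℝ → ℂ := fun i ξ => ch μ (sN N i * ξ) * e (-(y i * ξ)) with hg
  have hgc : ∀ i, Continuous (g i) := fun i =>
    ((continuous_ch μ).comp (by fun_prop)).mul (continuous_e.comp (by fun_prop))
  have h1 := hG (volume.restrict (Ioc R (2 * R))) J F g (memLp_of_cont F hF _ _)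
    (fun i _ => memLp_of_cont (g i) (hgc i) _ _)
  simp only [← intervalIntegral.integral_of_le hle] at h1
  have hGG : ∀ i j, (∫ x in R..(2 * R), g i x * (starRingEnd ℂ) (g j x)) = GG μ N R y i j := by
    intro i j
    unfold GG
    apply intervalIntegral.integral_congr
    intro ξ _
    simp only [hg, map_mul, conj_e]
    have : e (-((y i - y j) * ξ)) = e (-(y i * ξ)) * e (- -(y j * ξ)) := by
      rw [← e_add]; congr 1; ring
    rw [this]
    ring
  simp only [hGG] at h1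
  have h2 : (J.card : ℝ) * (b * Real.sqrt I) ≤ ∑ i ∈ J, ‖∫ x in R..(2 * R), F x * g i x‖ := by
    rw [← nsmul_eq_mul, ← Finset.sum_const]
    exact Finset.sum_le_sum fun i hi => h i hi
  have h3 : ((J.card : ℝ) * (b * Real.sqrt I)) ^ 2 ≤ I * ∑ i ∈ J, ∑ j ∈ J, ‖GG μ N R y i j‖ := by
    refine le_trans ?_ h1
    exact pow_le_pow_left₀ (by positivity) h2 2
  have h4 : ((J.card : ℝ) * (b * Real.sqrt I)) ^ 2 = I * ((J.card : ℝ) ^ 2 * b ^ 2) := by
    rw [mul_pow, mul_pow, Real.sq_sqrt hI.le]; ring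
  rw [h4] at h3
  exact le_of_mul_le_mul_left h3 hI

/-- many coincidences of slopes -/
theorem many_triples (N : ℕ) (hN : 0 < N) (R K : ℝ) (hR : 0 < R) (hK : 0 < K) (J : Finset ℤ) (y : ℤ → ℝ)
    (hJ : J ⊆ Finset.Ico 0 (N : ℤ)) :
    ∑ p ∈ Finset.Ioo (-(N : ℤ)) N, ∑ i ∈ Dp J p, ∑ j ∈ Dp J p,
        kr (3 * R) (Ph N y i p - Ph N y j p) ≤
      12 * R * (∑ p ∈ Finset.Ioo (-(N : ℤ)) N,
        (((Dp J p ×ˢ Dp J p).filter fun q => |Ph N y q.1 p - Ph N y q.2 p| ≤ K).card : ℝ)) +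
      8 * (N : ℝ) ^ 3 / K := by
  have hJc : (J.card : ℝ) ≤ N := by
    have := Finset.card_le_card hJ
    rw [Int.card_Ico] at this
    simp at this
    exact_mod_cast this
  have key : ∀ p ∈ Finset.Ioo (-(N : ℤ)) N, ∑ i ∈ Dp J p, ∑ j ∈ Dp J p,
        kr (3 * R) (Ph N y i p - Ph N y j p) ≤
      12 * R * (((Dp J p ×ˢ Dp J p).filter fun q => |Ph N y q.1 p - Ph N y q.2 p| ≤ K).card : ℝ) +
        4 * (N : ℝ) ^ 2 / K := by
    intro p _
    have hDc : ((Dp J p).card : ℝ) ≤ N := by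
      refine le_trans ?_ hJc
      exact_mod_cast Finset.card_le_card (Finset.filter_subset _ _)
    rw [← Finset.sum_product']
    have hpt : ∀ q ∈ Dp J p ×ˢ Dp J p, kr (3 * R) (Ph N y q.1 p - Ph N y q.2 p) ≤
        (if |Ph N y q.1 p - Ph N y q.2 p| ≤ K then 12 * R else 0) + 4 / K := by
      intro q _
      split_ifs with h
      · have := kr_le (3 * R) (Ph N y q.1 p - Ph N y q.2 p) (by positivity)
        have h4 : 0 < 4 / K := by positivity
        linarith
      · push Not at h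
        unfold kr
        rw [zero_add, div_le_div_iff₀ (by positivity) hK]
        nlinarith [mul_lt_mul_of_pos_left h (by positivity : (0:ℝ) < 12 * R)]
    refine (Finset.sum_le_sum hpt).trans ?_
    rw [Finset.sum_add_distrib, ← Finset.sum_filter, Finset.sum_const, Finset.sum_const,
      nsmul_eq_mul, nsmul_eq_mul, Finset.card_product]
    have h5 : ((Dp J p).card * (Dp J p).card : ℕ) * (4 / K) ≤ 4 * (N : ℝ) ^ 2 / K := by
      push_cast
      have : ((Dp J p).card : ℝ) * (Dp J p).card ≤ N * N :=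
        mul_le_mul hDc hDc (by positivity) (by positivity)
      calc ((Dp J p).card : ℝ) * (Dp J p).card * (4 / K) ≤ (N * N) * (4 / K) :=
            mul_le_mul_of_nonneg_right this (by positivity)
        _ = 4 * (N : ℝ) ^ 2 / K := by ring
    linarith
  refine (Finset.sum_le_sum key).trans ?_
  rw [Finset.sum_add_distrib, ← Finset.mul_sum, Finset.sum_const, nsmul_eq_mul]
  have hc : ((Finset.Ioo (-(N : ℤ)) N).card : ℝ) ≤ 2 * N := by
    rw [Int.card_Ioo]
    have : ((N : ℤ) - -(N : ℤ) - 1).toNat ≤ 2 * N := by omega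
    exact_mod_cast this
  have h6 : ((Finset.Ioo (-(N : ℤ)) N).card : ℝ) * (4 * (N : ℝ) ^ 2 / K) ≤ 8 * (N : ℝ) ^ 3 / K := by
    calc _ ≤ (2 * N) * (4 * (N : ℝ) ^ 2 / K) := mul_le_mul_of_nonneg_right hc (by positivity)
      _ = 8 * (N : ℝ) ^ 3 / K := by ring
  linarith

end Pool.Agent.Q66.DS
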