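import Pool.Agent.Q66.DS.Key

/-! # The key estimate: numerical part and assembly (project DS) -/

set_option autoImplicit false

open MeasureTheory Set Metric

namespace Pool.Agent.Q66.DS

/-- lower bound for the number of coincidences -/
theorem count_low (N : ℕ) (hN : 0 < N) (R κ α C1 S Y T : ℝ) (hR : 1 ≤ R) (hκ : 0 < κ) (hC1 : 1 ≤ C1)
    (h1 : (κ * N) ^ 2 * (κ * R ^ ((1 - α) / 2)) ^ 2 ≤ S)
    (h2 : S ^ 2 ≤ C1 * N * R ^ (1 - 2 * α) * Y)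
    (h3 : Y ≤ 12 * R * T + 8 * (N : ℝ) ^ 3 / (16 * C1 / (κ ^ 8 * R))) :
    κ ^ 8 / (24 * C1) * (N : ℝ) ^ 3 ≤ T := by
  have hR0 : 0 < R := by linarith
  have hN0 : (0 : ℝ) < N := by exact_mod_cast hN
  have hC0 : 0 < C1 := by linarith
  set A := R ^ (1 - 2 * α) with hA
  have hA0 : 0 < A := Real.rpow_pos_of_pos hR0 _
  have hsq : (R ^ ((1 - α) / 2)) ^ 4 = A * R := by
    rw [← Real.rpow_natCast, ← Real.rpow_mul hR0.le, hA]
    nth_rewrite 3 [← Real.rpow_one R]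
    rw [← Real.rpow_add hR0]
    congr 1
    push_cast
    ring
  have h4 : κ ^ 8 * (N : ℝ) ^ 4 * (A * R) ≤ C1 * N * A * Y := by
    calc κ ^ 8 * (N : ℝ) ^ 4 * (A * R) = ((κ * N) ^ 2 * (κ * R ^ ((1 - α) / 2)) ^ 2) ^ 2 := by
          rw [← hsq]; ring
      _ ≤ S ^ 2 := pow_le_pow_left₀ (by positivity) h1 2
      _ ≤ _ := h2
  have h5 : κ ^ 8 * (N : ℝ) ^ 3 * R ≤ C1 * Y := by
    have : (N : ℝ) * A * (κ ^ 8 * (N : ℝ) ^ 3 * R) ≤ N * A * (C1 * Y) := by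
      calc (N : ℝ) * A * (κ ^ 8 * (N : ℝ) ^ 3 * R) = κ ^ 8 * (N : ℝ) ^ 4 * (A * R) := by ring
        _ ≤ C1 * N * A * Y := h4
        _ = _ := by ring
    exact le_of_mul_le_mul_left this (by positivity)
  have h6 : 8 * (N : ℝ) ^ 3 / (16 * C1 / (κ ^ 8 * R)) = κ ^ 8 * N ^ 3 * R / (2 * C1) := by
    field_simp
    ring
  rw [h6] at h3
  have h7 : C1 * Y ≤ C1 * (12 * R * T) + κ ^ 8 * N ^ 3 * R / 2 := by
    calc C1 * Y ≤ C1 * (12 * R * T + κ ^ 8 * N ^ 3 * R / (2 * C1)) :=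
          mul_le_mul_of_nonneg_left h3 hC0.le
      _ = _ := by field_simp
  have h8 : R * (κ ^ 8 * (N : ℝ) ^ 3) ≤ R * (24 * C1 * T) := by linarith
  have h9 := le_of_mul_le_mul_left h8 hR0
  rw [div_mul_eq_mul_div, div_le_iff₀ (by positivity)]
  linarith

theorem t_KEY (hG : S_GRAM) (hP : S_PAIRS) (hC : S_COMB) (hA : S_AFF) : S_KEY := by
  intro q α C L hα hα1 hC0 hq
  obtain ⟨C1', hC1', hP'⟩ := hP α C L hα hα1 hC0
  obtain ⟨C2, hC2, hA'⟩ := hA α C L hα hα1 hC0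
  set C1 : ℝ := max C1' 1 with hC1
  have hC11 : 1 ≤ C1 := le_max_right _ _
  have hC10 : 0 < C1 := by linarith
  have hC1le : C1' ≤ C1 := le_max_left _ _
  -- the radius constant
  obtain ⟨c0, hc0, hc01, hc0α⟩ : ∃ c0 : ℝ, 0 < c0 ∧ c0 ≤ 1 ∧ C2 * c0 ^ α ≤ 1 / 2 := by
    refine ⟨min 1 ((1 / (2 * C2)) ^ (1 / α)), lt_min one_pos (by positivity), min_le_left _ _, ?_⟩
    have h1 : (min 1 ((1 / (2 * C2)) ^ (1 / α))) ^ α ≤ ((1 / (2 * C2)) ^ (1 / α)) ^ α :=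
      Real.rpow_le_rpow (le_min zero_le_one (by positivity)) (min_le_right _ _) hα.le
    rw [← Real.rpow_mul (by positivity), one_div_mul_cancel hα.ne', Real.rpow_one] at h1
    calc C2 * (min 1 ((1 / (2 * C2)) ^ (1 / α))) ^ α ≤ C2 * (1 / (2 * C2)) :=
          mul_le_mul_of_nonneg_left h1 hC2.le
      _ = 1 / 2 := by field_simp
  set D : ℝ := 24 * C1 with hD
  have hD0 : 0 < D := by positivity
  set E1 : ℝ := 100 * D ^ 4 with hE1
  set E2 : ℝ := 2 * C2 * (1 + 2 * (100000 * (16 * C1) * D ^ 4)) / c0 * (100 * D ^ 4) ^ 8 with hE2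
  refine ⟨E1 + E2, by positivity, ?_⟩
  intro μ hμ R N hR hRN κ J y F hκ hκ1 hJ hJc hF hI hlow
  have : IsProbabilityMeasure μ := hμ.1
  have hR0 : 0 < R := by linarith
  have hN0 : (0 : ℝ) < N := by
    have : 1 ≤ R ^ 2 := one_le_pow₀ hR
    linarith
  have hNpos : 0 < N := by exact_mod_cast hN0
  have hE1' : 0 < E1 := by positivity
  have hE2' : 0 < E2 := by positivity
  set B := R ^ ((1 - α) / 2) with hB
  have hB0 : 0 < B := Real.rpow_pos_of_pos hR0 _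
  have hBB : B ^ 2 = R ^ (1 - α) := by
    rw [hB, ← Real.rpow_natCast, ← Real.rpow_mul hR0.le]
    congr 1
    push_cast
    ring
  have hS := gram_low hG μ R hR0 N J y F hF (κ * B) (by positivity) hI hlow
  set S := ∑ i ∈ J, ∑ j ∈ J, ‖GG μ N R y i j‖ with hSdef
  have hS1 : (κ * N) ^ 2 * (κ * B) ^ 2 ≤ S :=
    (mul_le_mul_of_nonneg_right (pow_le_pow_left₀ (by positivity) hJc 2) (by positivity)).trans hS
  set K := 16 * C1 / (κ ^ 8 * R) with hK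
  have hK0 : 0 < K := by positivity
  set Y := ∑ p ∈ Finset.Ioo (-(N : ℤ)) N, ∑ i ∈ Dp J p, ∑ j ∈ Dp J p,
        kr (3 * R) (Ph N y i p - Ph N y j p) with hY
  have hY0 : 0 ≤ Y := Finset.sum_nonneg fun p _ => Finset.sum_nonneg fun i _ =>
    Finset.sum_nonneg fun j _ => kr_nonneg _ _ (by positivity)
  set T := ∑ p ∈ Finset.Ioo (-(N : ℤ)) N,
    (((Dp J p ×ˢ Dp J p).filter fun q => |Ph N y q.1 p - Ph N y q.2 p| ≤ K).card : ℝ) with hT
  have hS2 : S ^ 2 ≤ C1 * N * R ^ (1 - 2 * α) * Y := by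
    refine (hP' μ hμ R N hR hRN J y hJ).trans ?_
    have : C1' * N * R ^ (1 - 2 * α) ≤ C1 * N * R ^ (1 - 2 * α) := by gcongr
    exact mul_le_mul_of_nonneg_right this hY0
  have hT1 : κ ^ 8 / D * (N : ℝ) ^ 3 ≤ T :=
    count_low N hNpos R κ α C1 S Y T hR hκ hC11 hS1 hS2 (many_triples N hNpos R K hR0 hK0 J y hJ)
  set κ2 := κ ^ 8 / D with hκ2
  have hκ20 : 0 < κ2 := by positivity
  have hκ21 : κ2 ≤ 1 := by
    rw [hκ2, div_le_one hD0]
    have : κ ^ 8 ≤ 1 := pow_le_one₀ hκ.le hκ1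
    linarith
  have hpow : ∀ m : ℕ, m ≤ 400 + q → κ ^ (400 + q) ≤ κ ^ m := fun m hm =>
    pow_le_pow_of_le_one hκ.le hκ1 hm
  by_cases hNbig : 100 / κ2 ^ 4 ≤ N
  · obtain ⟨x1, x2, J', hJ'J, hJ'c, hJ'⟩ := hC N κ2 K J y hκ20 hκ21 hK0 hNbig hJ hT1
    set K' := 100000 * K / κ2 ^ 4 with hK'
    set ρ := c0 * κ ^ q with hρ
    have hκq : κ ^ q ≤ 1 := pow_le_one₀ hκ.le hκ1
    have hκq0 : 0 < κ ^ q := pow_pos hκ q
    have hρ0 : 0 < ρ := by positivity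
    have hρ1 : ρ ≤ 1 := mul_le_one₀ hc01 hκq0.le hκq
    have hS' := gram_low hG μ R hR0 N J' y F hF (κ * B) (by positivity) hI
      (fun i hi => hlow i (hJ'J hi))
    have hU := hA' μ hμ R N hR hRN J' y (hJ'J.trans hJ) x1 x2 K' ρ (by positivity) hρ0 hρ1 hJ'
    have hρα : C2 * ρ ^ α ≤ κ ^ 2 / 2 := by
      have h1 : ρ ^ α = c0 ^ α * (κ ^ q) ^ α := Real.mul_rpow hc0.le hκq0.le
      have h2 : (κ ^ q) ^ α ≤ κ ^ 2 := by
        rw [← Real.rpow_natCast, ← Real.rpow_mul hκ.le, ← Real.rpow_natCast κ 2]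
        exact Real.rpow_le_rpow_of_exponent_ge hκ hκ1 (by push_cast; linarith)
      rw [h1, ← mul_assoc]
      calc C2 * c0 ^ α * (κ ^ q) ^ α ≤ (1 / 2) * κ ^ 2 := by
            apply mul_le_mul hc0α h2 (by positivity) (by norm_num)
        _ = κ ^ 2 / 2 := by ring
    set c : ℝ := (J'.card : ℝ) with hc
    have h3 : c ^ 2 * (κ * B) ^ 2 ≤ c ^ 2 * R ^ (1 - α) * (κ ^ 2 / 2) +
        C2 * (1 + 2 * R * K') * (N : ℝ) ^ 2 * B / ρ := by
      refine (hS'.trans hU).trans ?_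
      have : C2 * c ^ 2 * R ^ (1 - α) * ρ ^ α ≤ c ^ 2 * R ^ (1 - α) * (κ ^ 2 / 2) := by
        calc C2 * c ^ 2 * R ^ (1 - α) * ρ ^ α = c ^ 2 * R ^ (1 - α) * (C2 * ρ ^ α) := by ring
          _ ≤ _ := mul_le_mul_of_nonneg_left hρα (by positivity)
      linarith
    have h4 : c ^ 2 * (κ ^ 2 / 2) * B ^ 2 ≤ C2 * (1 + 2 * R * K') * (N : ℝ) ^ 2 * B / ρ := by
      rw [← hBB] at h3
      nlinarith
    have h5 : ((κ2 ^ 4 / 100) ^ 4 * N) ^ 2 * (κ ^ 2 / 2) * B ^ 2 ≤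
        C2 * (1 + 2 * R * K') * (N : ℝ) ^ 2 * B / ρ := by
      refine le_trans ?_ h4
      have := pow_le_pow_left₀ (by positivity) hJ'c 2
      gcongr
    have h6 : (κ2 ^ 4 / 100) ^ 8 * (κ ^ 2 / 2) * B ≤ C2 * (1 + 2 * R * K') / ρ := by
      have h7 : ((N : ℝ) ^ 2 * B) * ((κ2 ^ 4 / 100) ^ 8 * (κ ^ 2 / 2) * B) ≤
          ((N : ℝ) ^ 2 * B) * (C2 * (1 + 2 * R * K') / ρ) := by
        calc _ = ((κ2 ^ 4 / 100) ^ 4 * N) ^ 2 * (κ ^ 2 / 2) * B ^ 2 := by ring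
          _ ≤ _ := h5
          _ = _ := by ring
      exact le_of_mul_le_mul_left h7 (by positivity)
    -- express everything in κ
    have hRK : R * K' = 100000 * (16 * C1) * D ^ 4 / κ ^ 40 := by
      rw [hK', hK, hκ2]
      field_simp
    have hκ40 : κ ^ 40 ≤ 1 := pow_le_one₀ hκ.le hκ1
    have hmul : κ ^ 40 * (1 + 2 * R * K') ≤ 1 + 2 * (100000 * (16 * C1) * D ^ 4) := by
      have : κ ^ 40 * (2 * R * K') = 2 * (100000 * (16 * C1) * D ^ 4) := by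
        rw [mul_assoc 2 R K', hRK]
        field_simp
      rw [mul_add, this, mul_one]
      linarith
    have h8 : κ ^ (298 + q) * B ≤ E2 := by
      have e1 : (κ2 ^ 4 / 100) ^ 8 = κ ^ 256 / (100 * D ^ 4) ^ 8 := by
        rw [hκ2, div_pow, div_pow, div_pow, ← pow_mul, ← pow_mul, mul_pow]
        field_simp
      rw [e1] at h6
      have h9 : κ ^ 40 * κ ^ q * (κ ^ 256 / (100 * D ^ 4) ^ 8 * (κ ^ 2 / 2) * B) ≤
          C2 * (1 + 2 * (100000 * (16 * C1) * D ^ 4)) / c0 := by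
        calc κ ^ 40 * κ ^ q * (κ ^ 256 / (100 * D ^ 4) ^ 8 * (κ ^ 2 / 2) * B)
            ≤ κ ^ 40 * κ ^ q * (C2 * (1 + 2 * R * K') / ρ) :=
              mul_le_mul_of_nonneg_left h6 (by positivity)
          _ = C2 * (κ ^ 40 * (1 + 2 * R * K')) / c0 := by
              rw [hρ]; field_simp
          _ ≤ _ := by gcongr
      have h10 : κ ^ (298 + q) * B = 2 * (100 * D ^ 4) ^ 8 *
          (κ ^ 40 * κ ^ q * (κ ^ 256 / (100 * D ^ 4) ^ 8 * (κ ^ 2 / 2) * B)) := by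
        rw [show 298 + q = 40 + q + 256 + 2 by ring, pow_add, pow_add, pow_add]
        field_simp
      rw [h10, hE2]
      calc _ ≤ 2 * (100 * D ^ 4) ^ 8 * (C2 * (1 + 2 * (100000 * (16 * C1) * D ^ 4)) / c0) :=
            mul_le_mul_of_nonneg_left h9 (by positivity)
        _ = _ := by ring
    calc κ ^ (400 + q) * B ≤ κ ^ (298 + q) * B :=
          mul_le_mul_of_nonneg_right (hpow _ (by omega)) hB0.le
      _ ≤ E2 := h8
      _ ≤ E1 + E2 := by linarith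
  · push Not at hNbig
    have h1 : (N : ℝ) * κ ^ 32 ≤ E1 := by
      have e1 : 100 / κ2 ^ 4 = E1 / κ ^ 32 := by
        rw [hκ2, hE1, div_pow, ← pow_mul]
        field_simp
      rw [e1, lt_div_iff₀ (by positivity)] at hNbig
      exact hNbig.le
    have h2 : B ≤ R ^ 2 := by
      rw [hB, ← Real.rpow_natCast R 2]
      exact Real.rpow_le_rpow_of_exponent_le hR (by push_cast; linarith)
    calc κ ^ (400 + q) * B ≤ κ ^ 32 * R ^ 2 :=
          mul_le_mul (hpow _ (by omega)) h2 hB0.le (by positivity)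
      _ ≤ κ ^ 32 * N := mul_le_mul_of_nonneg_left hRN (by positivity)
      _ = N * κ ^ 32 := mul_comm _ _
      _ ≤ E1 := h1
      _ ≤ E1 + E2 := by linarith

end Pool.Agent.Q66.DS
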