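import Pool.Agent.Q66.DS.Basic

/-! # JOB OSC (project DS) -/

set_option autoImplicit false

open MeasureTheory Set Metric

namespace Pool.Agent.Q66.DS

theorem t_OSC : S_OSC := by
  intro R a b z hR hab hbR
  have h1 : ‖∫ x in a..b, e (z * x)‖ ≤ b - a := by
    have := intervalIntegral.norm_integral_le_of_norm_le_const (a := a) (b := b) (C := 1)
      (f := fun x => e (z * x)) (fun x _ => (norm_e _).le)
    rwa [one_mul, abs_of_nonneg (by linarith)] at this
  by_cases hz : R * |z| ≤ 1
  · refine h1.trans (hbR.trans ?_)
    unfold kr
    rw [le_div_iff₀ (by positivity)]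
    nlinarith
  · push Not at hz
    have hz0 : z ≠ 0 := by
      rintro rfl
      simp at hz
      linarith
    have hzpos : 0 < |z| := abs_pos.2 hz0
    have h2 : (∫ x in a..b, e (z * x)) = (e (z * b) - e (z * a)) / ((z : ℂ) * Complex.I) := by
      have hc : ((z : ℂ) * Complex.I) ≠ 0 := mul_ne_zero (by exact_mod_cast hz0) Complex.I_ne_zero
      have := integral_exp_mul_complex (a := a) (b := b) hc
      unfold e
      rw [← show (∫ x in a..b, Complex.exp ((z : ℂ) * Complex.I * x)) =
        ∫ x in a..b, Complex.exp (((z * x : ℝ) : ℂ) * Complex.I) by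
          apply intervalIntegral.integral_congr
          intro x _
          simp only
          congr 1
          push_cast
          ring]
      rw [this]
      congr 2 <;> · congr 1; push_cast; ring
    have h3 : ‖∫ x in a..b, e (z * x)‖ ≤ 2 / |z| := by
      rw [h2, norm_div, norm_mul, Complex.norm_I, mul_one, Complex.norm_real, Real.norm_eq_abs]
      refine div_le_div_of_nonneg_right ?_ (abs_nonneg _)
      refine (norm_sub_le _ _).trans ?_
      rw [norm_e, norm_e]
      norm_num
    refine h3.trans ?_
    unfold kr
    rw [div_le_div_iff₀ hzpos (by positivity)]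
    nlinarith

end Pool.Agent.Q66.DS
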