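import Mathlib

/-!
# Interior of dilated sumsets below dimension 2/n (MP_e5d0a4_an): definitions and lemma statements

THEOREM.  For every `n ≥ 3` every Borel set `A` of reals with `dim_H A > 2/n - 1/(48 n (n+200))`
admits `t_2,...,t_n` such that `A + t_2 A + ... + t_n A` has nonempty interior.

Overview.  Let `μ` be a Frostman measure on `A` of exponent `α = 2/n - ε`.  With `ch μ` the
characteristic function, the classical argument bounds, for a function `F` on `[R,2R]`,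
`sup_y |∫_R^{2R} F(ξ) ch μ (s ξ) e(-yξ) dξ|` by `R^((1-α)/2) ‖F‖_2` for EVERY dilation `s`.
The new input (`S_KEY`) is that for all but few `s = exp u`, `u ∈ [0,1]`, one gains a power of `R`.
If there is no gain for the dilations `s_i = exp(i/N)`, `i ∈ J`, `|J| ≥ κ N`, with positions `y_i`, then
two applications of Cauchy-Schwarz (`S_GRAM`, `S_RATIO`, `S_PAIRS`) show that for many triples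
`(p,i,i')` the slopes `Φ(i,p) = (y_i - y_{i+p})/s_i` and `Φ(i',p)` are equal up to `K = κ^{-C}/R`; a
combinatorial argument (`S_COMB`) then shows `y_i = x_1 + x_2 s_i + O(κ^{-C}/R)` for many `i ∈ J`; and
for such `i` the Frostman condition gives a contradiction (`S_AFF`).
-/

set_option autoImplicit false

open MeasureTheory Set Metric

namespace Pool.Agent.Q66.DS

/-- `e x = exp (i x)`. -/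
noncomputable def e (x : ℝ) : ℂ := Complex.exp ((x : ℂ) * Complex.I)

/-- The characteristic function of a measure. -/
noncomputable def ch (μ : Measure ℝ) (ξ : ℝ) : ℂ := ∫ a, e (ξ * a) ∂μ

/-- The kernel `4 R / (1 + R |z|)`. -/
noncomputable def kr (R z : ℝ) : ℝ := 4 * R / (1 + R * |z|)

/-- Frostman measures with exponent `α` and constant `C` on `[-L, L]`. -/
def Frost (μ : Measure ℝ) (α C L : ℝ) : Prop :=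
  IsProbabilityMeasure μ ∧ μ (Icc (-L) L)ᶜ = 0 ∧
    ∀ x r : ℝ, 0 < r → μ (closedBall x r) ≤ ENNReal.ofReal (C * r ^ α)

/-- The dilations `exp (i / N)`. -/
noncomputable def sN (N : ℕ) (i : ℤ) : ℝ := Real.exp ((i : ℝ) / N)

/-- The inner products `⟨v_i, v_j⟩` of the functions `v_i(ξ) = ch μ (s_i ξ) e(- y_i ξ)` on `[R, 2R]`. -/
noncomputable def GG (μ : Measure ℝ) (N : ℕ) (R : ℝ) (y : ℤ → ℝ) (i j : ℤ) : ℂ :=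
  ∫ ξ in R..(2 * R), ch μ (sN N i * ξ) * (starRingEnd ℂ) (ch μ (sN N j * ξ)) *
    e (-((y i - y j) * ξ))

/-- The indices `i ∈ J` with `i + p ∈ J`. -/
def Dp (J : Finset ℤ) (p : ℤ) : Finset ℤ := J.filter fun i => i + p ∈ J

/-- The slopes. -/
noncomputable def Ph (N : ℕ) (y : ℤ → ℝ) (i p : ℤ) : ℝ := (y i - y (i + p)) / sN N i

/-- The Fejer kernel `∫_0^R (1 - ξ/R) cos (x ξ) dξ`. -/
noncomputable def Kf (R x : ℝ) : ℝ := ∫ ξ in (0 : ℝ)..R, (1 - ξ / R) * Real.cos (x * ξ)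

/-- **JOB OSC** (0.3 h).
Proof. The norm is at most `b - a ≤ R` (the integrand has norm one).  If `z ≠ 0` then the integral is
`(e(z b) - e(z a)) / (i z)`, of norm at most `2/|z|`.  If `R|z| ≤ 1` then
`kr R z = 4R/(1+R|z|) ≥ 2R ≥ R`; otherwise `1 + R|z| ≤ 2R|z|` and `kr R z ≥ 2/|z|`. -/
def S_OSC : Prop := ∀ R a b z : ℝ, 0 < R → a ≤ b → b - a ≤ R →
  ‖∫ x in a..b, e (z * x)‖ ≤ kr R z

/-- **JOB KRI** (0.6 h).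
Proof.  `C = 8/(1 - 2^{-(1-α)})`.  Pointwise, with `z = x - c`,
`kr R z ≤ ∑_{k ≥ 0} 8 R 2^{-k} 1[|z| ≤ 2^k / R]`: if `|z| ≤ 1/R` the term `k = 0` is `8R ≥ 4R`; otherwise
choose `k ≥ 1` with `2^{k-1} < R|z| ≤ 2^k`, then `kr R z ≤ 4R/(1+2^{k-1}) ≤ 8R 2^{-k}`.
Integrate (monotone convergence; use `lintegral` and `lintegral_tsum`, or `hasSum`):
`∑ 8 R 2^{-k} C0 (2^k/R)^α = 8 C0 R^{1-α} ∑ 2^{-k(1-α)}`.  (The kernel is bounded by `4R` and continuous, so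
it is integrable for the finite measure `μ`.) -/
def S_KRI : Prop := ∀ α : ℝ, α < 1 → ∃ C : ℝ, 0 < C ∧
  ∀ (μ : Measure ℝ) (R C0 c : ℝ), IsFiniteMeasure μ → 0 < R → 0 ≤ C0 →
    (∀ r : ℝ, 1 / R ≤ r → μ (closedBall c r) ≤ ENNReal.ofReal (C0 * r ^ α)) →
    ∫ x, kr R (x - c) ∂μ ≤ C * C0 * R ^ (1 - α)

/-- **JOB L2** (0.6 h).  Use `S_OSC` and `S_KRI` as hypotheses: `theorem t_L2 (h1 : S_OSC) (h2 : S_KRI) : S_L2`.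
Proof.  `‖ch μ ξ‖^2 = ch μ ξ * conj (ch μ ξ) = ∫∫ e(ξ (x - x')) dμ(x) dμ(x')`; Fubini on
`[a,b] × ℝ × ℝ` (bounded continuous integrand, finite measures) gives
`∫_a^b ‖ch μ ξ‖^2 dξ = ∫∫ (∫_a^b e((x-x') ξ) dξ) dμ dμ ≤ ∫ (∫ kr R (x - x') dμ(x)) dμ(x') ≤ C_1 C R^{1-α}`
by `S_OSC` and `S_KRI` (with `c = x'`, `C0 = C`), `μ` being a probability measure. -/
def S_L2 : Prop := ∀ α C L : ℝ, α < 1 → 0 < C → ∃ C' : ℝ, 0 < C' ∧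
  ∀ μ : Measure ℝ, Frost μ α C L → ∀ a b R : ℝ, 0 < R → a ≤ b → b - a ≤ R →
    ∫ ξ in a..b, ‖ch μ ξ‖ ^ 2 ≤ C' * R ^ (1 - α)

/-- **JOB AVG** (0.5 h).  `theorem t_AVG (h : S_L2) : S_AVG`.
Proof.  Substitute `ζ = exp u * ξ` (`intervalIntegral.integral_comp_mul_deriv` applied to
`f ζ = ‖ch μ ζ‖^2 / ζ`; `ch μ` is continuous, in fact Lipschitz with constant `L`):
the left side is `∫_{ξ/e}^{eξ} ‖ch μ ζ‖^2 dζ/ζ ≤ (e/ξ) ∫_{ξ/e}^{eξ} ‖ch μ ζ‖^2 dζ ≤ (e/ξ) C' (3ξ)^{1-α}`. -/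
def S_AVG : Prop := ∀ α C L : ℝ, 0 < α → α < 1 → 0 < C → ∃ C' : ℝ, 0 < C' ∧
  ∀ μ : Measure ℝ, Frost μ α C L → ∀ ξ : ℝ, 0 < ξ →
    ∫ u in (-1 : ℝ)..1, ‖ch μ (Real.exp u * ξ)‖ ^ 2 ≤ C' * ξ ^ (-α)

/-- **JOB GRID** (0.8 h).  `theorem t_GRID (h : S_AVG) : S_GRID`.
Proof.  `ch μ` has norm at most one and is Lipschitz with constant `|L|` (`μ` lives on `[-L,L]`), so
`‖ch μ a‖^2 ≤ ‖ch μ b‖^2 + 2|L||a-b|`.  For `p ∈ (-N,N)` and `v ∈ [p/N,(p+1)/N]`: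
`|exp(p/N) ζ - exp(v) ζ| ≤ 6 R * 3 / N`, hence
`‖ch μ (exp(p/N) ζ)‖^2 ≤ N ∫_{p/N}^{(p+1)/N} ‖ch μ (exp v ζ)‖^2 dv + 36 |L| R / N`.
Sum over `-N < p < N`: at most `N ∫_{-1}^{1} ... + 72 |L| R ≤ N C' ζ^{-α} + 72|L| R`, and
`ζ^{-α} ≤ R^{-α}`, `R ≤ N / R ≤ N R^{-α}`. -/
def S_GRID : Prop := ∀ α C L : ℝ, 0 < α → α < 1 → 0 < C → ∃ C' : ℝ, 0 < C' ∧
  ∀ μ : Measure ℝ, Frost μ α C L → ∀ (R ζ : ℝ) (N : ℕ), 1 ≤ R → R ^ 2 ≤ N → R ≤ ζ → ζ ≤ 6 * R →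
    ∑ p ∈ Finset.Ioo (-(N : ℤ)) N, ‖ch μ (sN N p * ζ)‖ ^ 2 ≤ C' * N * R ^ (-α)

/-- **JOB GRAM** (0.5 h).
Proof.  For each `i` choose `θ_i` with `‖θ_i‖ ≤ 1` and `θ_i * ∫ F g_i = ‖∫ F g_i‖`.  Then
`∑ ‖∫ F g_i‖ = ∫ F ∑ θ_i g_i ≤ (∫ ‖F‖^2)^{1/2} (∫ ‖∑ θ_i g_i‖^2)^{1/2}` (Cauchy-Schwarz in `L^2`), and
`∫ ‖∑ θ_i g_i‖^2 = ∑∑ θ_i conj(θ_j) ∫ g_i conj(g_j) ≤ ∑∑ ‖∫ g_i conj(g_j)‖`. -/
def S_GRAM : Prop := ∀ (ν : Measure ℝ) (J : Finset ℤ) (F : ℝ → ℂ) (g : ℤ → ℝ → ℂ),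
  MemLp F 2 ν → (∀ i ∈ J, MemLp (g i) 2 ν) →
  (∑ i ∈ J, ‖∫ x, F x * g i x ∂ν‖) ^ 2 ≤
    (∫ x, ‖F x‖ ^ 2 ∂ν) * ∑ i ∈ J, ∑ j ∈ J, ‖∫ x, g i x * (starRingEnd ℂ) (g j x) ∂ν‖

/-- **JOB RATIO** (1 h).  `theorem t_RATIO (h1 : S_OSC) (h2 : S_GRAM) : S_RATIO`.
Proof.  Substitute `ζ = s_i ξ`: the `i`-th integral is
`∫_{[R,6R]} F(ζ) g_i(ζ) dζ` with `F(ζ) = φ(ζ) conj(φ(r ζ))` and
`g_i(ζ) = s_i⁻¹ 1[s_i R ≤ ζ ≤ 2 s_i R] e(-(w_i/s_i) ζ)` (note `[s_i R, 2 s_i R] ⊆ [R, 6R]`).  Apply `S_GRAM` with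
`ν` the Lebesgue measure on `Ioc R (6R)` (all functions are bounded and measurable there).
`∫ g_i conj(g_j)` is `(s_i s_j)⁻¹` times the integral of `e(-(w_i/s_i - w_j/s_j) ζ)` over the interval
`[max(s_i,s_j) R, 2 min(s_i,s_j) R]` (or zero if this is empty), an interval of length at most `3R`, so by `S_OSC`
its norm is at most `kr (3R) (w_i/s_i - w_j/s_j)` (`kr` is even in `z`). -/
def S_RATIO : Prop := ∀ φ : ℝ → ℂ, Continuous φ → ∀ R r : ℝ, 0 < R → 0 < r →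
  ∀ (D : Finset ℤ) (s w : ℤ → ℝ), (∀ i ∈ D, 1 ≤ s i ∧ s i ≤ 3) →
  (∑ i ∈ D, ‖∫ ξ in R..(2 * R), φ (s i * ξ) * (starRingEnd ℂ) (φ (r * (s i * ξ))) *
    e (-(w i * ξ))‖) ^ 2 ≤
    (∫ ζ in R..(6 * R), ‖φ ζ‖ ^ 2 * ‖φ (r * ζ)‖ ^ 2) *
      ∑ i ∈ D, ∑ j ∈ D, kr (3 * R) (w i / s i - w j / s j)

/-- **JOB PAIRS** (0.8 h).  `theorem t_PAIRS (h1 : S_RATIO) (h2 : S_GRID) (h3 : S_L2) : S_PAIRS`.
Proof.  `∑_{i,j ∈ J} ‖GG i j‖ = ∑_{-N<p<N} ∑_{i ∈ Dp J p} ‖GG i (i+p)‖` (put `p = j - i`), and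
`sN N (i+p) = sN N p * sN N i`.  For fixed `p`, `S_RATIO` with `φ = ch μ`, `r = sN N p`, `s = sN N`,
`w i = y i - y (i+p)`, `D = Dp J p` (for `i ∈ J ⊆ [0,N)`: `1 ≤ sN N i ≤ exp 1 ≤ 3`) gives
`(∑_{i} ‖GG i (i+p)‖)^2 ≤ X_p Y_p`, `X_p = ∫_R^{6R} ‖ch μ ζ‖^2 ‖ch μ (sN N p ζ)‖^2 dζ`,
`Y_p = ∑_{i,j ∈ Dp J p} kr (3R) (Ph i p - Ph j p)`.  Cauchy-Schwarz over `p`:
`(∑_p (X_p Y_p)^{1/2})^2 ≤ (∑ X_p)(∑ Y_p)`, and by `S_GRID` and `S_L2`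
`∑_p X_p = ∫_R^{6R} ‖ch μ ζ‖^2 ∑_p ‖ch μ (sN N p ζ)‖^2 dζ ≤ C_1 N R^{-α} C_2 (5R)^{1-α}`. -/
def S_PAIRS : Prop := ∀ α C L : ℝ, 0 < α → α < 1 → 0 < C → ∃ C' : ℝ, 0 < C' ∧
  ∀ μ : Measure ℝ, Frost μ α C L → ∀ (R : ℝ) (N : ℕ), 1 ≤ R → R ^ 2 ≤ N →
  ∀ (J : Finset ℤ) (y : ℤ → ℝ), J ⊆ Finset.Ico 0 (N : ℤ) →
    (∑ i ∈ J, ∑ j ∈ J, ‖GG μ N R y i j‖) ^ 2 ≤ C' * N * R ^ (1 - 2 * α) *
      ∑ p ∈ Finset.Ioo (-(N : ℤ)) N, ∑ i ∈ Dp J p, ∑ j ∈ Dp J p,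
        kr (3 * R) (Ph N y i p - Ph N y j p)

/-- **JOB COMBA** (1 h).  A Cauchy-Schwarz and pigeonhole argument for finite sets of integers.
Proof.  Put `P = Ioo (-N) N` (`|P| < 2N`), `Q_p = M_p × (M_p + p)`, a subset of `I × I` where
`I = Ico 0 N` (by hypothesis `i + p ∈ I` for `i ∈ M_p`).  `∑ |Q_p| = ∑ |M_p|^2 ≥ (∑|M_p|)^2/(2N) ≥ κ^2 N^3/2`.
Cauchy-Schwarz over `I × I`: `∑_{p,p'} |Q_p ∩ Q_p'| = ∑_{z ∈ I×I} #{p : z ∈ Q_p}^2 ≥ (∑|Q_p|)^2/N^2 ≥ κ^4 N^4/4`.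
`|Q_p ∩ Q_p'| = |M_p ∩ M_p'| |(M_p+p) ∩ (M_p'+p')| ≤ N^2`.  Put `κ3 = κ^4/64`.  The pairs with
`|Q_p ∩ Q_p'| < κ3 N^2` contribute at most `4N^2 κ3 N^2 = κ^4 N^4/16`, so at least `(3/16) κ^4 N^2` pairs have
`|Q_p ∩ Q_p'| ≥ κ3 N^2`, and for these both factors are `≥ κ3 N`.  At most
`2N (2 κ3 N + 1) ≤ κ^4 N^2/16 + 2N ≤ (3/32) κ^4 N^2` pairs have `|p' - p| ≤ κ3 N` (as `N ≥ 100/κ^4`); so at
least `(3/32) κ^4 N^2` good pairs remain, the difference `w = p' - p` takes fewer than `4N` values, and some `w` has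
at least `(3/128) κ^4 N ≥ κ3 N` good `p`. -/
def S_COMBA : Prop := ∀ (N : ℕ) (κ : ℝ) (M : ℤ → Finset ℤ), 0 < κ → κ ≤ 1 → 100 / κ ^ 4 ≤ N →
  (∀ p, M p ⊆ Finset.Ico 0 (N : ℤ)) → (∀ p, ∀ i ∈ M p, 0 ≤ i + p ∧ i + p < (N : ℤ)) →
  κ * (N : ℝ) ^ 2 ≤ ∑ p ∈ Finset.Ioo (-(N : ℤ)) N, ((M p).card : ℝ) →
  ∃ (w : ℤ) (P : Finset ℤ), κ ^ 4 / 64 * N ≤ |(w : ℝ)| ∧ κ ^ 4 / 64 * N ≤ (P.card : ℝ) ∧
    P ⊆ Finset.Ioo (-(N : ℤ)) N ∧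
    ∀ p ∈ P, κ ^ 4 / 64 * N ≤ ((M p ∩ M (p + w)).card : ℝ) ∧
      κ ^ 4 / 64 * N ≤
        (((M p).image (fun i => i + p) ∩ (M (p + w)).image (fun i => i + (p + w))).card : ℝ)

/-- **JOB COMBB** (0.5 h).  Pigeonhole for popular values.
Proof.  Choose a maximal set `T` of elements of `P` whose values `A p` are pairwise more than `2K` apart
(a maximal subset with this property exists, `P` being finite).  The sets `{l ∈ D : |f l - A p| ≤ K}`, `p ∈ T`, are disjoint,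
of size at least `κ N`, in `D`, so `|T| κ N ≤ |D| ≤ N` and `|T| ≤ 1/κ`.  By maximality each `p ∈ P` has some `q ∈ T` with
`|A p - A q| ≤ 2K`; some `q` serves at least `|P|/|T| ≥ κ |P|` of them; `a = A q`.  (If `P` is empty take `a = 0`.) -/
def S_COMBB : Prop := ∀ (N : ℕ) (κ K : ℝ) (D P : Finset ℤ) (f A : ℤ → ℝ), 0 < κ → 0 < K → 0 < N →
  (D.card : ℝ) ≤ N → (∀ p ∈ P, κ * N ≤ ((D.filter fun l => |f l - A p| ≤ K).card : ℝ)) →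
  ∃ (a : ℝ) (P' : Finset ℤ), P' ⊆ P ∧ κ * P.card ≤ (P'.card : ℝ) ∧ ∀ p ∈ P', |A p - a| ≤ 2 * K

/-- **JOB COMB** (1.2 h).  `theorem t_COMB (h1 : S_COMBA) (h2 : S_COMBB) : S_COMB`.
Notation: `s i = sN N i`, `Φ(i,p) = Ph N y i p = (y i - y(i+p))/s i`, `D_p = Dp J p`; for `i ∈ J`: `1 ≤ s i ≤ 3`.
Proof.  (a) For `p` in `P0 = Ioo (-N) N` choose `i_p ∈ D_p` maximising `#{i ∈ D_p : |Φ(i,p) - Φ(i_p,p)| ≤ K}`, put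
`k p = Φ(i_p,p)`, `M_p = {i ∈ D_p : |Φ(i,p) - k p| ≤ K}` (and `M_p = ∅` if `D_p = ∅` or `p ∉ P0`).  As `|D_p| ≤ N`,
`#{(i,i')} ≤ |D_p| |M_p| ≤ N |M_p|`, so `∑ |M_p| ≥ κ N^2`.  (b) `S_COMBA` gives `w`, `P`; put `κ3 = κ^4/64`.
Note `|w| < N` (the set `M_p ∩ M_{p+w}` is nonempty and `l = i + p`, `l + w = i + p + w` lie in `J ⊆ [0,N)`).
For `p ∈ P`, `p' = p + w`:
FIRST.  For `i ∈ M_p ∩ M_p'` and `l = i + p`: `y i - y l = s_i (k p + O(K))`, `y i - y(l+w) = s_i(k p' + O(K))`, so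
`y l - y(l+w) = s_i (k p' - k p + O(2K))` and `|Φ(l,w) - A p| ≤ 2 (s_i/s_l) K ≤ 6K` where
`A p = exp(-p/N) (k p' - k p)` (`s_i/s_l = exp(-p/N) ≤ exp 1 ≤ 3`).  So at least `κ3 N` elements `l ∈ Dp J w` have
`|Φ(l,w) - A p| ≤ 6K`.
SECOND.  For `m = i + p = i' + p'` with `i ∈ M_p`, `i' ∈ M_p'` (so `i = i' + w`):
`y m = y i - s_i(k p + O(K)) = y i' - s_i'(k p' + O(K))`, so `y i' - y(i'+w) = s_i'(k p' - exp(w/N) k p + O((1+e)K))` and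
`|Φ(i',w) - B p| ≤ 4K ≤ 6K` where `B p = k p' - exp(w/N) k p`.  Again at least `κ3 N` elements `i' ∈ Dp J w`.
(c) `S_COMBB` twice (with `6K`, `D = Dp J w`) gives `a, b` and `P'' ⊆ P` with `|P''| ≥ κ3^2 κ3 N` and
`|A p - a| ≤ 12K`, `|B p - b| ≤ 12K` on `P''`.  Then `k p' - k p = exp(p/N)(a + O(12K))` and
`k p' - exp(w/N) k p = b + O(12K)`, hence `k p (exp(w/N) - 1) = exp(p/N) a - b + O(48K)`.  As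
`|exp(w/N)-1| ≥ |w|/(2N) ≥ κ3/2`, `|k p - (c1 + c2 exp(p/N))| ≤ 96K/κ3` with `c2 = a/(exp(w/N)-1)`,
`c1 = -b/(exp(w/N)-1)`.
(d) For `p ∈ P''`, `|M_p| ≥ κ3 N`, so `∑_{p ∈ P''} |M_p| ≥ κ3^4 N^2` and some `m ∈ J` lies in `M_p` for at least
`κ3^4 N` elements `p ∈ P''`.  For `l = m + p` (in `J`), `y l = y m - s_m(k p + O(K)) = y m - s_m c1 - c2 s_l + O(3(K + 96K/κ3))`,
and `3(1 + 96*64) ≤ 20000`.  Take `x1 = y m - s_m c1`, `x2 = -c2`, `J'` the set of these `l`. -/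
def S_COMB : Prop := ∀ (N : ℕ) (κ K : ℝ) (J : Finset ℤ) (y : ℤ → ℝ), 0 < κ → κ ≤ 1 → 0 < K →
  100 / κ ^ 4 ≤ N → J ⊆ Finset.Ico 0 (N : ℤ) →
  κ * (N : ℝ) ^ 3 ≤ ∑ p ∈ Finset.Ioo (-(N : ℤ)) N,
    (((Dp J p ×ˢ Dp J p).filter fun q => |Ph N y q.1 p - Ph N y q.2 p| ≤ K).card : ℝ) →
  ∃ (x1 x2 : ℝ) (J' : Finset ℤ), J' ⊆ J ∧ (κ ^ 4 / 100) ^ 4 * N ≤ (J'.card : ℝ) ∧
    ∀ l ∈ J', |y l - x1 - x2 * sN N l| ≤ 100000 * K / κ ^ 4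

/-- **JOB AFF** (1.2 h).  `theorem t_AFF (h1 : S_OSC) (h2 : S_KRI) : S_AFF`.
Proof.  By Fubini `GG i j = ∫∫ (∫_R^{2R} e(ξ z) dξ) dμ(a) dμ(a')`, `z = s_i a - s_j a' - (y i - y j)`, so
`‖GG i j‖ ≤ ∫∫ kr R z dμ(a) dμ(a')` by `S_OSC`.  Here `z = s_i(a - x2) - s_j(a' - x2) - ε`, `|ε| ≤ 2K`.
Facts on `kr`: `kr R (z + ε) ≤ (1 + R|ε|) kr R z`; `kr R (s z) ≤ kr R z` for `|s| ≥ 1`;
`kr R (b z) ≤ (1/ρ) kr R z` for `|b| ≥ ρ`, `0 < ρ ≤ 1` (for `|b| ≤ 1` use `1 + R|b||z| ≥ |b|(1 + R|z|)`).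
NEAR part, `a' ∈ closedBall x2 ρ`: for fixed `a', i, j`, `∫ kr R (s_i a - c) dμ(a) ≤ ∫ kr R (a - c/s_i) dμ(a) ≤ C_1 C R^{1-α}`
(`S_KRI`, `s_i ≥ 1`), and `μ(closedBall x2 ρ) ≤ C ρ^α`: total at most `|J|^2 C_1 C^2 R^{1-α} ρ^α`.
FAR part, `|a' - x2| > ρ`: put `b = a - x2`, `b' = a' - x2`.  For fixed `a, a', i`:
`∑_{j ∈ J} kr R z ≤ (1 + 2RK) ∑_j kr R (b'(s_j - x0)) ≤ (1+2RK) (1/ρ) ∑_j kr R (s_j - x0)`, `x0 = s_i b/b'`.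
Apply `S_KRI` with exponent `γ = (1+α)/2 < 1` to the measure `λ = (1/N) ∑_{j ∈ J} dirac (s_j)`: the points
`s_j`, `0 ≤ j < N`, are `1/N`-separated (`exp` has derivative `≥ 1` on `[0,1]`), so `λ(closedBall x0 r) ≤ (2rN + 1)/N ≤ 3r` for
`r ≥ 1/R ≥ 1/N`, and `λ ≤ 1`, hence `λ(closedBall x0 r) ≤ 3 r^γ`.  So `∑_j kr R (s_j - x0) ≤ 3 C_2 N R^{1-γ}`,
`R^{1-γ} = R^{(1-α)/2}`; summing over `i ∈ J` (at most `N`): total at most `(1+2RK) 3 C_2 N^2 R^{(1-α)/2}/ρ`. -/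
def S_AFF : Prop := ∀ α C L : ℝ, 0 < α → α < 1 → 0 < C → ∃ C' : ℝ, 0 < C' ∧
  ∀ μ : Measure ℝ, Frost μ α C L → ∀ (R : ℝ) (N : ℕ), 1 ≤ R → R ^ 2 ≤ N →
  ∀ (J : Finset ℤ) (y : ℤ → ℝ), J ⊆ Finset.Ico 0 (N : ℤ) →
  ∀ x1 x2 K ρ : ℝ, 0 ≤ K → 0 < ρ → ρ ≤ 1 → (∀ l ∈ J, |y l - x1 - x2 * sN N l| ≤ K) →
    ∑ i ∈ J, ∑ j ∈ J, ‖GG μ N R y i j‖ ≤
      C' * (J.card : ℝ) ^ 2 * R ^ (1 - α) * ρ ^ α +
      C' * (1 + 2 * R * K) * (N : ℝ) ^ 2 * R ^ ((1 - α) / 2) / ρ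

/-- **KEY** (helper66).  `theorem t_KEY : S_GRAM → S_PAIRS → S_COMB → S_AFF → S_KEY`. -/
def S_KEY : Prop := ∀ (q : ℕ) (α C L : ℝ), 0 < α → α < 1 → 0 < C → 2 ≤ q * α →
  ∃ C' : ℝ, 0 < C' ∧ ∀ μ : Measure ℝ, Frost μ α C L →
  ∀ (R : ℝ) (N : ℕ), 1 ≤ R → R ^ 2 ≤ N →
  ∀ (κ : ℝ) (J : Finset ℤ) (y : ℤ → ℝ) (F : ℝ → ℂ), 0 < κ → κ ≤ 1 →
    J ⊆ Finset.Ico 0 (N : ℤ) → κ * N ≤ (J.card : ℝ) → Continuous F →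
    0 < ∫ ξ in R..(2 * R), ‖F ξ‖ ^ 2 →
    (∀ i ∈ J, κ * R ^ ((1 - α) / 2) * Real.sqrt (∫ ξ in R..(2 * R), ‖F ξ‖ ^ 2) ≤
      ‖∫ ξ in R..(2 * R), F ξ * (ch μ (sN N i * ξ) * e (-(y i * ξ)))‖) →
    κ ^ (400 + q) * R ^ ((1 - α) / 2) ≤ C'

/-- **JOB BAD** (1 h).  `theorem t_BAD (h : S_KEY) : S_BAD`.
Proof.  Constant: that of `S_KEY` for `q, α, C, 3|L|`.  Let `B` be the set in the statement, it is open in `ℝ` (a union over `y` of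
sets `{u ∈ (0,1) : c < ‖continuous function of u‖}`), let `N = ⌈R^2⌉`.  Then
`κ < vol B = ∑_{0≤m<N} vol {x ∈ (0,1/N) : m/N + x ∈ B} = ∫_0^{1/N} #{m : m/N + x ∈ B} dx`, so there is `x ∈ (0,1/N)` such that
`J = {m ∈ Ico 0 N : m/N + x ∈ B}` has `κ N ≤ |J|`.  Choose `y m` for `m ∈ J` as in the definition of `B`.
Let `μ'` be the image of `μ` under `a ↦ exp(x) a` (`1 ≤ exp x ≤ 3`): `Frost μ' α C (3|L|)` and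
`ch μ' ξ = ch μ (exp x * ξ)`, so `ch μ' (sN N m * ξ) = ch μ (exp(m/N + x) * ξ)`.  If `κ ≤ 1` apply `S_KEY`
(`0 < ∫‖F‖^2` since otherwise the integral in `B` would vanish, by continuity `F = 0` on `[R,2R]`; and
`∫‖F‖^2 ≤ Q`); `κ > 1` is impossible as `vol B ≤ 1`. -/
def S_BAD : Prop := ∀ (q : ℕ) (α C L : ℝ), 0 < α → α < 1 → 0 < C → 2 ≤ q * α →
  ∃ C' : ℝ, 0 < C' ∧ ∀ μ : Measure ℝ, Frost μ α C L →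
  ∀ (R κ Q : ℝ) (F : ℝ → ℂ), 1 ≤ R → 0 < κ → Continuous F → ∫ ξ in R..(2 * R), ‖F ξ‖ ^ 2 ≤ Q →
    ENNReal.ofReal κ < volume {u : ℝ | u ∈ Ioo (0 : ℝ) 1 ∧ ∃ y : ℝ, κ * R ^ ((1 - α) / 2) * Real.sqrt Q <
      ‖∫ ξ in R..(2 * R), F ξ * (ch μ (Real.exp u * ξ) * e (-(y * ξ)))‖} →
    κ ^ (400 + q) * R ^ ((1 - α) / 2) ≤ C'

/-- **JOB PICK** (1 h).  `theorem t_PICK (h : S_BAD) : S_PICK`.
Proof.  Put `P = 400 + q`, `η = (1-α)/(4P) > 0`, `R = 2^k`, `κ = R^{-η}`, `Q_k = Q R^β`.  By `S_BAD`, if the set `B_{i,k}` (with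
`F = F i k`, `Q = Q_k`) has measure `> κ` then `R^{(1-α)/2 - Pη} = R^{(1-α)/4} ≤ C'`, which fails for `k ≥ k0`.  Increase
`k0` such that `∑_{k ≥ k0} 2 * 2^{-ηk} < 1`; then some `u ∈ (0,1)` is in no `B_{i,k}`, `k ≥ k0`, `i = 0, 1`, so that
for these `k` and all `y` the integral is at most `κ R^{(1-α)/2} (Q R^β)^{1/2} = Q^{1/2} R^{-η + (1-α+β)/2} ≤ Q^{1/2} R^{-η/2}`.
For `k < k0` use Cauchy-Schwarz (or continuity of `F i k` on the compact interval): the integral is at most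
`∫ ‖F i k‖ ≤ M_k` for all `y`; take `M` large. -/
def S_PICK : Prop := ∀ (q : ℕ) (α C L : ℝ), 0 < α → α < 1 → 0 < C → 2 ≤ q * α →
  ∀ μ : Measure ℝ, Frost μ α C L → ∀ (Q β : ℝ) (F : Bool → ℕ → ℝ → ℂ), 0 < Q →
    1 - α + β ≤ (1 - α) / (4 * (400 + q)) → (∀ i k, Continuous (F i k)) →
    (∀ i k, ∫ ξ in ((2 : ℝ) ^ k)..(2 * 2 ^ k), ‖F i k ξ‖ ^ 2 ≤ Q * ((2 : ℝ) ^ k) ^ β) →
    ∃ u ∈ Icc (0 : ℝ) 1, ∃ M : ℝ, 0 < M ∧ ∀ i k, ∀ y : ℝ,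
      ‖∫ ξ in ((2 : ℝ) ^ k)..(2 * 2 ^ k), F i k ξ * (ch μ (Real.exp u * ξ) * e (-(y * ξ)))‖ ≤
        M * ((2 : ℝ) ^ k) ^ (-((1 - α) / (8 * (400 + q))))

/-- **JOB TS** (1.2 h).  `theorem t_TS (h1 : S_L2) (h2 : S_AVG) : S_TS`.
Proof.  Claim: for every `m` and `ε > 0` there is `t : Fin (m+1) → ℝ` with `t 0 = 1`, `1 ≤ t i ≤ 3` and (as a `lintegral` over
`Ici 1`, integrand `ENNReal.ofReal`) `∫_1^∞ ξ^{-β_m} ∏_i ‖ch μ (t_i ξ)‖^2 dξ < ∞` where `β_m = 1 - (m+1)α + ε`.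
`m = 0`: `∫_{2^k}^{2^{k+1}} ξ^{-(1-α+ε)} ‖ch μ ξ‖^2 dξ ≤ 2^{-k(1-α+ε)} C' 2^{k(1-α)} = C' 2^{-kε}`, summable over `k`.
Step: by Tonelli
`∫_0^1 du ∫_1^∞ ξ^{-β_{m+1}} ∏_{i≤m} ‖ch μ (t_i ξ)‖^2 ‖ch μ (exp u ξ)‖^2 dξ ≤ ∫_1^∞ ξ^{-β_{m+1}} ∏_{i ≤ m}(...) C' ξ^{-α} dξ < ∞`
by `S_AVG` (`∫_0^1 ≤ ∫_{-1}^1`) as `β_{m+1} + α = β_m`; so for some `u ∈ [0,1]` the inner integral is finite; `t_{m+1} = exp u`.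
Conclusion: on `[2^k, 2^{k+1}]` one has `ξ^{-β} ≥ 2^{-|β|} (2^k)^{-β}`, so
`∫_{2^k}^{2^{k+1}} ∏ ‖ch μ (t_i ξ)‖^2 dξ ≤ 2^{|β|} (2^k)^β * (value of the integral)`. -/
def S_TS : Prop := ∀ (m : ℕ) (α C L ε : ℝ), 0 < α → α < 1 → 0 < C → 0 < ε →
  ∀ μ : Measure ℝ, Frost μ α C L → ∃ t : Fin (m + 1) → ℝ, t 0 = 1 ∧ (∀ i, 1 ≤ t i ∧ t i ≤ 3) ∧
    ∃ Q : ℝ, 0 < Q ∧ ∀ k : ℕ, ∫ ξ in ((2 : ℝ) ^ k)..(2 * 2 ^ k), ∏ i, ‖ch μ (t i * ξ)‖ ^ 2 ≤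
      Q * ((2 : ℝ) ^ k) ^ (1 - (m + 1) * α + ε)

/-- **JOB FEJ** (0.4 h).
Proof.  For `x ≠ 0`, `Kf R x = (1 - cos (R x))/(R x^2)` (integrate by parts, or check that
`ξ ↦ (1 - ξ/R) sin(xξ)/x - cos(xξ)/(R x^2)` is a primitive); `Kf R 0 = R/2`.  So `0 ≤ Kf R x ≤ 2/(R x^2)`.  For `0 < |x| ≤ 1/R`,
`z = R x`: `1 - cos z ≥ z^2/2 - (5/96) z^4 ≥ z^2/4` (`Real.cos_bound`), so `Kf R x ≥ R/4`.  The bound `Kf R x ≤ R` is trivial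
(`|cos| ≤ 1`, `0 ≤ 1 - ξ/R ≤ 1`). -/
def S_FEJ : Prop := ∀ R : ℝ, 0 < R →
  (∀ x, 0 ≤ Kf R x) ∧ (∀ x, Kf R x ≤ R) ∧ (∀ x, x ≠ 0 → Kf R x ≤ 2 / (R * x ^ 2)) ∧
    (∀ x, |x| ≤ 1 / R → R / 4 ≤ Kf R x) ∧ Continuous (Kf R)

/-- **JOB TOP** (1.5 h).  `theorem t_TOP (h : S_FEJ) : S_TOP`.
Proof.  Let `g_j(y) = ∫ Kf (2^j) (y - x) dν(x)`; by Fubini `g_j(y) = Re ∫_0^{2^j} (1 - ξ/2^j) ch ν ξ e(-yξ) dξ`.  Let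
`V_j = 2 g_{j+1} - g_j`, so `V_j(y) = Re ∫_0^{2^{j+1}} v_j(ξ) ch ν ξ e(-yξ) dξ`, `v_j = 1` on `[0,2^j]`, `v_j(ξ) = 2 - ξ/2^j` on
`[2^j, 2^{j+1}]`.  Hence `V_{j+1}(y) - V_j(y) = Re (∫_{2^j}^{2^{j+1}} (ξ/2^j - 1) ... + ∫_{2^{j+1}}^{2^{j+2}} (2 - ξ/2^{j+1}) ...)`, of absolute
value at most `2 M 2^{-cj}` for all `y`.  Suppose `interior S = ∅`.  For `y ∉ S` let `d > 0` be the distance of `y` to `S`; then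
`0 ≤ g_j(y) ≤ 2/(2^j d^2) → 0`, so `V_j(y) → 0` and `|V_j(y)| ≤ ∑_{i ≥ j} 2M 2^{-ci} =: τ_j → 0`.  As `Sᶜ` is dense and `V_j` is
continuous, `|V_j(y)| ≤ τ_j` for all `y`.  From `g_{j+1} = (V_j + g_j)/2` and `0 ≤ g_0 ≤ 1` the numbers `G_j = sup |g_j|` satisfy
`G_{j+1} ≤ (τ_j + G_j)/2`, so `G_j → 0`.  But with `Y` such that `ν` lives on `[-Y,Y]`, Fubini and `S_FEJ` give for every `j`
`∫_{-Y-1}^{Y+1} g_j(y) dy ≥ ∫ (∫_{|y-x| ≤ 2^{-j}} 2^j/4 dy) dν(x) = 1/2`, so `G_j ≥ 1/(4(Y+1))`: a contradiction. -/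
def S_TOP : Prop := ∀ (ν : Measure ℝ) (Y M c : ℝ) (S : Set ℝ), IsProbabilityMeasure ν → 0 < Y → 0 < M → 0 < c →
  ν (Icc (-Y) Y)ᶜ = 0 → IsClosed S → ν Sᶜ = 0 →
  (∀ (k : ℕ) (y : ℝ), ‖∫ ξ in ((2 : ℝ) ^ k)..(2 * 2 ^ k), ((ξ / 2 ^ k - 1 : ℝ) : ℂ) * (ch ν ξ * e (-(y * ξ)))‖ ≤
    M * ((2 : ℝ) ^ k) ^ (-c)) →
  (∀ (k : ℕ) (y : ℝ), ‖∫ ξ in ((2 : ℝ) ^ k)..(2 * 2 ^ k), ((2 - ξ / 2 ^ k : ℝ) : ℂ) * (ch ν ξ * e (-(y * ξ)))‖ ≤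
    M * ((2 : ℝ) ^ k) ^ (-c)) →
  (interior S).Nonempty

/-- **JOB LAW** (0.6 h).
Proof.  `ν` is the image of the product measure `Measure.pi (fun _ => μ)` on `Fin n → ℝ` under `a ↦ ∑ i, t i * a i`.
`ch ν ξ = ∫ ∏ e(t_i ξ a_i) d(pi) = ∏ ch μ (t_i ξ)` (`integral_fintype_prod_eq_prod` or similar).  The set
`{z | ∃ a, (∀ i, a i ∈ K) ∧ z = ∑ i, t i * a i}` is the image of the compact set `univ.pi (fun _ => K)`, hence closed, and carries `ν`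
since `pi` gives the set `{a | ∃ i, a i ∉ K}` measure zero.  Same for the bound `Y` with `|a_i| ≤ |L|`,
`Y = 1 + ∑ |t i| |L|`. -/
def S_LAW : Prop := ∀ (n : ℕ) (μ : Measure ℝ) (t : Fin n → ℝ) (K : Set ℝ) (L : ℝ), IsProbabilityMeasure μ →
  IsCompact K → μ Kᶜ = 0 → μ (Icc (-L) L)ᶜ = 0 →
  IsClosed {z : ℝ | ∃ a : Fin n → ℝ, (∀ i, a i ∈ K) ∧ z = ∑ i, t i * a i} ∧
  ∃ ν : Measure ℝ, IsProbabilityMeasure ν ∧ (∀ ξ, ch ν ξ = ∏ i, ch μ (t i * ξ)) ∧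
    ν {z : ℝ | ∃ a : Fin n → ℝ, (∀ i, a i ∈ K) ∧ z = ∑ i, t i * a i}ᶜ = 0 ∧
    ∃ Y : ℝ, 0 < Y ∧ ν (Icc (-Y) Y)ᶜ = 0

/-- **JOB FROB** (0.4 h).  From the starting library: `Pool.Agent.W342.AG.cap` (Borel sets in `EuclideanSpace ℝ (Fin n)` contain compact
sets of large Hausdorff dimension, `S_CAP` in `Pool/Agent/W778/AG/Stmts.lean`) and
`Pool.Agent.H744R2.Falc.frostman_dimH` (Frostman for compact sets), transferred to `ℝ` by the isometry with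
`EuclideanSpace ℝ (Fin 1)` as in `Pool/Agent/H813R2/CS/T_FRO.lean` (whose `t_FRO` is the compact case on the line).
Copy the needed starting files into your working tree if they are missing there. -/
def S_FROB : Prop := ∀ (A : Set ℝ) (α : ℝ), MeasurableSet A → 0 < α → ENNReal.ofReal α < dimH A →
  ∃ (K : Set ℝ) (μ : Measure ℝ) (C L : ℝ), K ⊆ A ∧ IsCompact K ∧ μ Kᶜ = 0 ∧ 0 < C ∧ Frost μ α C L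

end Pool.Agent.Q66.DS
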